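import Mathlib

set_option autoImplicit false

open Finset MeasureTheory ProbabilityTheory

namespace Pool.Agent.Helper722.LogPoly

variable {Ω : Type*} [MeasurableSpace Ω] {P : Measure Ω} [IsProbabilityMeasure P]

/-- Third order Taylor remainder for `exp`. -/
lemma abs_exp_sub_le (x : ℝ) : |Real.exp x - 1 - x - x ^ 2 / 2| ≤ |x| ^ 3 * Real.exp |x| := by
  have h := Complex.norm_exp_sub_sum_le_norm_mul_exp (x : ℂ) 3
  have e : Complex.exp (x : ℂ) - ∑ m ∈ Finset.range 3, (x : ℂ) ^ m / (m.factorial : ℂ) =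
      ((Real.exp x - 1 - x - x ^ 2 / 2 : ℝ) : ℂ) := by
    simp [Finset.sum_range_succ, Nat.factorial]
    ring
  rw [e, Complex.norm_real, Complex.norm_real] at h
  simpa using h

lemma abs_pow_three_le (c x : ℝ) (hc : 0 < c) :
    |x| ^ 3 * Real.exp (c / 2 * |x|) ≤ 48 / c ^ 3 * Real.exp (c * |x|) := by
  have h1 : (c / 2 * |x|) ^ 3 / 6 ≤ Real.exp (c / 2 * |x|) := by
    have := Real.pow_div_factorial_le_exp (c / 2 * |x|) (by positivity) 3
    simpa [Nat.factorial] using this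
  have h2 : |x| ^ 3 ≤ 48 / c ^ 3 * Real.exp (c / 2 * |x|) := by
    have hc3 : 0 < c ^ 3 := by positivity
    rw [div_mul_eq_mul_div, le_div_iff₀ hc3]
    have e : (c / 2 * |x|) ^ 3 / 6 = |x| ^ 3 * c ^ 3 / 48 := by ring
    rw [e] at h1
    linarith
  calc |x| ^ 3 * Real.exp (c / 2 * |x|)
      ≤ (48 / c ^ 3 * Real.exp (c / 2 * |x|)) * Real.exp (c / 2 * |x|) := by gcongr
    _ = 48 / c ^ 3 * Real.exp (c * |x|) := by
        rw [mul_assoc, ← Real.exp_add]; congr 2; ring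

/-- Two sided bound of the moment generating function near zero. -/
lemma mgf_bounds (X : Ω → ℝ) (hX : Measurable X) (hm : ∫ ω, X ω ∂P = 0)
    (hv : ∫ ω, (X ω) ^ 2 ∂P = 1) (c : ℝ) (hc : 0 < c)
    (hint : Integrable (fun ω => Real.exp (c * |X ω|)) P) :
    ∃ t₀ A : ℝ, 0 < t₀ ∧ 0 < A ∧ ∀ t : ℝ, |t| ≤ t₀ →
      Integrable (fun ω => Real.exp (t * X ω)) P ∧
      Real.exp (t ^ 2 / 2 - A * |t| ^ 3) ≤ ∫ ω, Real.exp (t * X ω) ∂P ∧
      ∫ ω, Real.exp (t * X ω) ∂P ≤ Real.exp (t ^ 2 / 2 + A * |t| ^ 3) := by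
  set B : ℝ := 48 / c ^ 3 * ∫ ω, Real.exp (c * |X ω|) ∂P with hB
  have hB0 : 0 ≤ B := by
    have : 0 ≤ ∫ ω, Real.exp (c * |X ω|) ∂P := integral_nonneg fun ω => (Real.exp_pos _).le
    positivity
  set A : ℝ := B + 1 with hA
  have hA0 : 0 < A := by linarith
  refine ⟨min (c / 2) (1 / (2 * A)), A, by positivity, hA0, ?_⟩
  intro t ht
  have ht1 : |t| ≤ c / 2 := ht.trans (min_le_left _ _)
  have ht2 : |t| ≤ 1 / (2 * A) := ht.trans (min_le_right _ _)
  have ht2' : A * |t| ≤ 1 / 2 := by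
    rw [le_div_iff₀ (by positivity)] at ht2
    linarith
  have ht3 : |t| ≤ 1 / 2 := by nlinarith [abs_nonneg t]
  -- integrability
  have hI : Integrable (fun ω => Real.exp (t * X ω)) P := by
    refine Integrable.mono' hint (by fun_prop) (Filter.Eventually.of_forall fun ω => ?_)
    rw [Real.norm_eq_abs, Real.abs_exp]
    apply Real.exp_le_exp.mpr
    calc t * X ω ≤ |t * X ω| := le_abs_self _
      _ = |t| * |X ω| := abs_mul _ _
      _ ≤ c * |X ω| := by
          apply mul_le_mul_of_nonneg_right _ (abs_nonneg _)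
          linarith
  have hdom : ∀ ω, |Real.exp (t * X ω) - 1 - t * X ω - (t * X ω) ^ 2 / 2| ≤
      |t| ^ 3 * (48 / c ^ 3 * Real.exp (c * |X ω|)) := by
    intro ω
    refine (abs_exp_sub_le (t * X ω)).trans ?_
    rw [abs_mul, mul_pow, mul_assoc]
    apply mul_le_mul_of_nonneg_left _ (by positivity)
    refine le_trans ?_ (abs_pow_three_le c (X ω) hc)
    gcongr
  have hX2 : Integrable (fun ω => (X ω) ^ 2) P := by
    refine Integrable.mono' (hint.const_mul (2 / c ^ 2)) (by fun_prop)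
      (Filter.Eventually.of_forall fun ω => ?_)
    rw [Real.norm_eq_abs, abs_of_nonneg (sq_nonneg _)]
    have := Real.pow_div_factorial_le_exp (c * |X ω|) (by positivity) 2
    have e : (c * |X ω|) ^ 2 / (Nat.factorial 2 : ℝ) = c ^ 2 / 2 * (X ω) ^ 2 := by
      simp [Nat.factorial, mul_pow, sq_abs]; ring
    rw [e] at this
    rw [div_mul_eq_mul_div, le_div_iff₀ (by positivity)]
    linarith
  have hX1 : Integrable X P := by
    refine Integrable.mono' (hint.const_mul (1 / c)) (by fun_prop)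
      (Filter.Eventually.of_forall fun ω => ?_)
    rw [Real.norm_eq_abs]
    have := Real.add_one_le_exp (c * |X ω|)
    rw [div_mul_eq_mul_div, le_div_iff₀ hc]
    linarith
  have hrem : Integrable (fun ω => Real.exp (t * X ω) - 1 - t * X ω - (t * X ω) ^ 2 / 2) P := by
    have h1 : Integrable (fun ω => t * X ω) P := hX1.const_mul t
    have h2 : Integrable (fun ω => (t * X ω) ^ 2 / 2) P := by
      have : (fun ω => (t * X ω) ^ 2 / 2) = fun ω => t ^ 2 / 2 * (X ω) ^ 2 := by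
        ext ω; ring
      rw [this]; exact hX2.const_mul _
    exact ((hI.sub (integrable_const 1)).sub h1).sub h2
  have hval : ∫ ω, (Real.exp (t * X ω) - 1 - t * X ω - (t * X ω) ^ 2 / 2) ∂P =
      ∫ ω, Real.exp (t * X ω) ∂P - 1 - t ^ 2 / 2 := by
    have h1 : Integrable (fun ω => t * X ω) P := hX1.const_mul t
    have h2 : Integrable (fun ω => (t * X ω) ^ 2 / 2) P := by
      have : (fun ω => (t * X ω) ^ 2 / 2) = fun ω => t ^ 2 / 2 * (X ω) ^ 2 := by
        ext ω; ring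
      rw [this]; exact hX2.const_mul _
    have s1 : ∫ ω, (Real.exp (t * X ω) - 1 - t * X ω - (t * X ω) ^ 2 / 2) ∂P =
        ∫ ω, (Real.exp (t * X ω) - 1 - t * X ω) ∂P - ∫ ω, (t * X ω) ^ 2 / 2 ∂P :=
      integral_sub ((hI.sub (integrable_const 1)).sub h1) h2
    have s2 : ∫ ω, (Real.exp (t * X ω) - 1 - t * X ω) ∂P =
        ∫ ω, (Real.exp (t * X ω) - 1) ∂P - ∫ ω, t * X ω ∂P :=
      integral_sub (hI.sub (integrable_const 1)) h1
    have s3 : ∫ ω, (Real.exp (t * X ω) - 1) ∂P =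
        ∫ ω, Real.exp (t * X ω) ∂P - ∫ _ω, (1 : ℝ) ∂P :=
      integral_sub hI (integrable_const 1)
    rw [s1, s2, s3]
    have e1 : ∫ ω, t * X ω ∂P = 0 := by rw [integral_const_mul, hm, mul_zero]
    have e2 : ∫ ω, (t * X ω) ^ 2 / 2 ∂P = t ^ 2 / 2 := by
      have : (fun ω => (t * X ω) ^ 2 / 2) = fun ω => t ^ 2 / 2 * (X ω) ^ 2 := by
        ext ω; ring
      rw [this, integral_const_mul, hv, mul_one]
    rw [e1, e2]
    simp
  have hbd : |∫ ω, Real.exp (t * X ω) ∂P - 1 - t ^ 2 / 2| ≤ B * |t| ^ 3 := by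
    rw [← hval]
    refine (abs_integral_le_integral_abs).trans ?_
    refine (integral_mono hrem.abs ((hint.const_mul _).const_mul _) hdom).trans (le_of_eq ?_)
    rw [integral_const_mul, integral_const_mul, hB]; ring
  obtain ⟨hlo, hhi⟩ := abs_le.mp hbd
  refine ⟨hI, ?_, ?_⟩
  · -- lower bound
    set a := |t| with ha
    have ha0 : 0 ≤ a := abs_nonneg _
    have hta : t ^ 2 = a ^ 2 := (sq_abs t).symm
    rw [hta] at hlo
    rw [hta]
    have hy : |a ^ 2 / 2 - A * a ^ 3| ≤ a ^ 2 := by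
      rw [abs_le]; constructor <;> nlinarith [mul_nonneg ha0 ha0, mul_nonneg (mul_nonneg ha0 ha0) ha0]
    have hy1 : |a ^ 2 / 2 - A * a ^ 3| ≤ 1 := hy.trans (by nlinarith)
    have h1 := Real.abs_exp_sub_one_sub_id_le hy1
    have h2 := (abs_le.mp h1).2
    have h3 : (a ^ 2 / 2 - A * a ^ 3) ^ 2 ≤ a ^ 3 := by
      have h4 : (a ^ 2 / 2 - A * a ^ 3) ^ 2 ≤ (a ^ 2) ^ 2 := by
        rw [← sq_abs (a ^ 2 / 2 - A * a ^ 3)]
        exact pow_le_pow_left₀ (abs_nonneg _) hy 2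
      have h5 : (a ^ 2) ^ 2 ≤ a ^ 3 := by
        have : 0 ≤ a ^ 3 := by positivity
        nlinarith
      linarith
    have h6 : A * a ^ 3 = B * a ^ 3 + a ^ 3 := by rw [hA]; ring
    linarith
  · -- upper bound
    have h1 := Real.add_one_le_exp (t ^ 2 / 2 + A * |t| ^ 3)
    have h2 : B * |t| ^ 3 ≤ A * |t| ^ 3 := by
      apply mul_le_mul_of_nonneg_right _ (by positivity)
      linarith
    linarith

/-- Exponential control of finite linear combinations (the only probabilistic input used). -/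
def ExpCtl {Ω : Type*} [MeasurableSpace Ω] (P : Measure Ω) (X : ℕ → Ω → ℝ) (t₀ A : ℝ) : Prop :=
  (∀ k, Measurable (X k)) ∧
  ∀ (s : Finset ℕ) (t : ℕ → ℝ), (∀ k ∈ s, 1 ≤ k) → (∀ k ∈ s, |t k| ≤ t₀) →
    Integrable (fun ω => Real.exp (∑ k ∈ s, t k * X k ω)) P ∧
    Real.exp (∑ k ∈ s, ((t k) ^ 2 / 2 - A * |t k| ^ 3)) ≤
      ∫ ω, Real.exp (∑ k ∈ s, t k * X k ω) ∂P ∧
    ∫ ω, Real.exp (∑ k ∈ s, t k * X k ω) ∂P ≤
      Real.exp (∑ k ∈ s, ((t k) ^ 2 / 2 + A * |t k| ^ 3))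

lemma expCtl_of_iid (ξ : ℕ → Ω → ℝ) (hmeas : ∀ k, Measurable (ξ k)) (hind : iIndepFun ξ P)
    (hid : ∀ k, IdentDistrib (ξ k) (ξ 0) P P) (hm : ∫ ω, ξ 0 ω ∂P = 0)
    (hv : ∫ ω, (ξ 0 ω) ^ 2 ∂P = 1) (c : ℝ) (hc : 0 < c)
    (hint : Integrable (fun ω => Real.exp (c * |ξ 0 ω|)) P) :
    ∃ t₀ A : ℝ, 0 < t₀ ∧ 0 < A ∧ ExpCtl P (fun k => ξ (k - 1)) t₀ A := by
  obtain ⟨t₀, A, ht₀, hA, hb⟩ := mgf_bounds (ξ 0) (hmeas 0) hm hv c hc hint
  refine ⟨t₀, A, ht₀, hA, fun k => hmeas _, ?_⟩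
  intro s t hs ht
  -- move to the index set shifted by one
  have hinj : Set.InjOn (fun k : ℕ => k - 1) (s : Set ℕ) := by
    intro a ha b hb hab
    have h1 := hs a ha
    have h2 := hs b hb
    simp only at hab
    omega
  set Y : ℕ → Ω → ℝ := fun j ω => t (j + 1) * ξ j ω with hY
  have hYmeas : ∀ j, Measurable (Y j) := fun j => (hmeas j).const_mul _
  have hYind : iIndepFun Y P :=
    hind.comp (fun j x => t (j + 1) * x) (fun j => measurable_const_mul _)
  have hsum : ∀ ω, ∑ k ∈ s, t k * ξ (k - 1) ω = (∑ j ∈ s.image (fun k => k - 1), Y j) ω := by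
    intro ω
    rw [Finset.sum_apply, Finset.sum_image hinj]
    refine Finset.sum_congr rfl fun k hk => ?_
    have h1 := hs k hk
    simp only [hY, Nat.sub_add_cancel h1]
  have hmgf : ∀ k ∈ s, Integrable (fun ω => Real.exp (t k * ξ (k - 1) ω)) P ∧
      Real.exp ((t k) ^ 2 / 2 - A * |t k| ^ 3) ≤ mgf (Y (k - 1)) P 1 ∧
      mgf (Y (k - 1)) P 1 ≤ Real.exp ((t k) ^ 2 / 2 + A * |t k| ^ 3) := by
    intro k hk
    have h1 := hs k hk
    obtain ⟨hI, hlo, hhi⟩ := hb (t k) (ht k hk)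
    have hid' : IdentDistrib (fun ω => Real.exp (t k * ξ (k - 1) ω))
        (fun ω => Real.exp (t k * ξ 0 ω)) P P :=
      (hid (k - 1)).comp ((measurable_const_mul (t k)).exp)
    have e : mgf (Y (k - 1)) P 1 = ∫ ω, Real.exp (t k * ξ 0 ω) ∂P := by
      rw [← hid'.integral_eq]
      simp only [mgf, hY, one_mul, Nat.sub_add_cancel h1]
    rw [e]
    exact ⟨hid'.integrable_iff.mpr hI, hlo, hhi⟩
  have hInt : ∀ j ∈ s.image (fun k => k - 1), Integrable (fun ω => Real.exp (1 * Y j ω)) P := by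
    intro j hj
    obtain ⟨k, hk, rfl⟩ := Finset.mem_image.mp hj
    have := (hmgf k hk).1
    have h1 := hs k hk
    simpa only [hY, one_mul, Nat.sub_add_cancel h1] using this
  have hI := hYind.integrable_exp_mul_sum (t := 1) hYmeas hInt
  have hM := hYind.mgf_sum (t := 1) hYmeas (s.image (fun k => k - 1))
  have hval : ∫ ω, Real.exp (∑ k ∈ s, t k * ξ (k - 1) ω) ∂P = ∏ k ∈ s, mgf (Y (k - 1)) P 1 := by
    rw [← Finset.prod_image (f := fun j => mgf (Y j) P 1) hinj, ← hM]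
    simp only [mgf, one_mul]
    exact integral_congr_ae (Filter.Eventually.of_forall fun ω => by simp only [hsum ω])
  refine ⟨?_, ?_, ?_⟩
  · have : (fun ω => Real.exp (∑ k ∈ s, t k * ξ (k - 1) ω)) =
        fun ω => Real.exp (1 * (∑ j ∈ s.image (fun k => k - 1), Y j) ω) := by
      ext ω; rw [one_mul, hsum ω]
    rw [this]; exact hI
  · rw [hval, Real.exp_sum]
    exact Finset.prod_le_prod (fun k _ => (Real.exp_pos _).le) (fun k hk => (hmgf k hk).2.1)
  · rw [hval, Real.exp_sum]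
    exact Finset.prod_le_prod (fun k _ => mgf_nonneg) (fun k hk => (hmgf k hk).2.2)

end Pool.Agent.Helper722.LogPoly
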