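import Mathlib

set_option autoImplicit false

open Finset

namespace Pool.Agent.Helper722.LogPoly

/-- Closed form of the Dirichlet sums, times `2 sin (x/2)`. -/
lemma two_sin_mul_sum_cos (x φ : ℝ) (a m : ℕ) (h : a ≤ m) :
    2 * Real.sin (x / 2) * ∑ k ∈ Ico a m, Real.cos (k * x + φ) =
      Real.sin (m * x + φ - x / 2) - Real.sin (a * x + φ - x / 2) := by
  induction m, h using Nat.le_induction with
  | base => simp
  | succ m hm ih =>
    rw [Finset.sum_Ico_succ_top hm, mul_add, ih]
    have e1 : ((m + 1 : ℕ) : ℝ) * x + φ - x / 2 = (m * x + φ) + x / 2 := by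
      push_cast; ring
    rw [e1, Real.sin_add, Real.sin_sub (↑m * x + φ) (x / 2)]
    ring

lemma abs_sum_cos_le (x φ : ℝ) (hx : Real.sin (x / 2) ≠ 0) (a m : ℕ) :
    |∑ k ∈ Ico a m, Real.cos (k * x + φ)| ≤ 1 / |Real.sin (x / 2)| := by
  rcases le_total a m with h | h
  · have h1 := two_sin_mul_sum_cos x φ a m h
    have hpos : 0 < |Real.sin (x / 2)| := abs_pos.mpr hx
    rw [le_div_iff₀ hpos]
    have h2 : |2 * Real.sin (x / 2) * ∑ k ∈ Ico a m, Real.cos (k * x + φ)| ≤ 2 := by
      rw [h1]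
      have := abs_sub (Real.sin (m * x + φ - x / 2)) (Real.sin (a * x + φ - x / 2))
      have e1 := Real.abs_sin_le_one (m * x + φ - x / 2)
      have e2 := Real.abs_sin_le_one (a * x + φ - x / 2)
      linarith
    rw [abs_mul, abs_mul, abs_two] at h2
    nlinarith
  · rw [Finset.Ico_eq_empty_of_le h]
    simp

/-- Abel summation bound. -/
lemma abel_bound (c u : ℕ → ℝ) (D : ℝ) (a : ℕ)
    (hc : ∀ m, |∑ k ∈ Ico a m, c k| ≤ D)
    (hu0 : ∀ k, a ≤ k → 0 ≤ u k) (hu : ∀ k, a ≤ k → u (k + 1) ≤ u k) (b : ℕ) :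
    |∑ k ∈ Ico a b, u k * c k| ≤ u a * D := by
  have hD : 0 ≤ D := le_trans (abs_nonneg _) (hc 0)
  rcases le_total a b with h | h
  · have key : ∀ m, a ≤ m → ∑ k ∈ Ico a m, u k * c k =
        u m * (∑ k ∈ Ico a m, c k) +
          ∑ k ∈ Ico a m, (u k - u (k + 1)) * (∑ i ∈ Ico a (k + 1), c i) := by
      intro m hm
      induction m, hm using Nat.le_induction with
      | base => simp
      | succ m hm ih =>
        rw [Finset.sum_Ico_succ_top hm, Finset.sum_Ico_succ_top hm, Finset.sum_Ico_succ_top hm, ih,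
          Finset.sum_Ico_succ_top hm]
        ring
    have tele : ∀ m, a ≤ m → ∑ k ∈ Ico a m, (u k - u (k + 1)) = u a - u m := by
      intro m hm
      induction m, hm using Nat.le_induction with
      | base => simp
      | succ m hm ih =>
        rw [Finset.sum_Ico_succ_top hm, ih]; ring
    rw [key b h]
    calc |u b * (∑ k ∈ Ico a b, c k) +
          ∑ k ∈ Ico a b, (u k - u (k + 1)) * (∑ i ∈ Ico a (k + 1), c i)|
        ≤ |u b * (∑ k ∈ Ico a b, c k)| +
          |∑ k ∈ Ico a b, (u k - u (k + 1)) * (∑ i ∈ Ico a (k + 1), c i)| := abs_add_le _ _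
      _ ≤ u b * D + ∑ k ∈ Ico a b, (u k - u (k + 1)) * D := by
          gcongr
          · rw [abs_mul, abs_of_nonneg (hu0 b h)]
            exact mul_le_mul_of_nonneg_left (hc b) (hu0 b h)
          · refine (Finset.abs_sum_le_sum_abs _ _).trans ?_
            refine Finset.sum_le_sum fun k hk => ?_
            have hk' : a ≤ k := (Finset.mem_Ico.mp hk).1
            rw [abs_mul, abs_of_nonneg (sub_nonneg.mpr (hu k hk'))]
            exact mul_le_mul_of_nonneg_left (hc _) (sub_nonneg.mpr (hu k hk'))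
      _ = u a * D := by
          rw [← Finset.sum_mul, tele b h]; ring
  · rw [Finset.Ico_eq_empty_of_le h]
    simp
    exact mul_nonneg (hu0 a le_rfl) hD

/-- `|∑_{a<k≤b} cos(kx+φ)/k| ≤ 1/((a+1)|sin(x/2)|)`. -/
lemma abs_sum_cos_div_le (x φ : ℝ) (hx : Real.sin (x / 2) ≠ 0) (a b : ℕ) :
    |∑ k ∈ Ioc a b, Real.cos (k * x + φ) / k| ≤ 1 / ((a + 1 : ℝ) * |Real.sin (x / 2)|) := by
  have h := abel_bound (fun k => Real.cos (k * x + φ)) (fun k => 1 / (k : ℝ))
    (1 / |Real.sin (x / 2)|) (a + 1) (fun m => abs_sum_cos_le x φ hx _ m)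
    (fun k _ => by positivity)
    (fun k hk => by
      have : (0 : ℝ) < k := by exact_mod_cast lt_of_lt_of_le (Nat.succ_pos a) hk
      push_cast
      exact one_div_le_one_div_of_le this (by linarith)) (b + 1)
  have e : Ioc a b = Ico (a + 1) (b + 1) := by
    ext k; simp only [Finset.mem_Ioc, Finset.mem_Ico]; omega
  rw [e]
  have e2 : ∀ k ∈ Ico (a + 1) (b + 1), Real.cos (k * x + φ) / k =
      1 / (k : ℝ) * Real.cos (k * x + φ) := by
    intro k _; ring
  rw [Finset.sum_congr rfl e2]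
  refine h.trans (le_of_eq ?_)
  push_cast
  have hs : |Real.sin (x / 2)| ≠ 0 := (abs_pos.mpr hx).ne'
  field_simp

/-- Upper bound of harmonic sums. -/
lemma sum_inv_le_log (a b : ℕ) (ha : 1 ≤ a) (hab : a ≤ b) :
    ∑ k ∈ Ioc a b, 1 / (k : ℝ) ≤ Real.log b - Real.log a := by
  induction b, hab using Nat.le_induction with
  | base => simp
  | succ b hb ih =>
    rw [Finset.sum_Ioc_succ_top hb]
    have hb0 : (0 : ℝ) < b := by exact_mod_cast lt_of_lt_of_le ha hb
    have h1 : 1 / ((b + 1 : ℕ) : ℝ) ≤ Real.log ((b + 1 : ℕ) : ℝ) - Real.log b := by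
      have h2 := Real.one_sub_inv_le_log_of_pos (x := ((b + 1 : ℕ) : ℝ) / b) (by positivity)
      rw [Real.log_div (by positivity) (by positivity)] at h2
      refine le_trans (le_of_eq ?_) h2
      push_cast
      field_simp
      ring
    linarith

/-- Lower bound of harmonic sums. -/
lemma log_le_sum_inv (a b : ℕ) (hab : a ≤ b) :
    Real.log (b + 1) - Real.log (a + 1) ≤ ∑ k ∈ Ioc a b, 1 / (k : ℝ) := by
  induction b, hab using Nat.le_induction with
  | base => simp
  | succ b hb ih =>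
    rw [Finset.sum_Ioc_succ_top hb]
    have hb0 : (0 : ℝ) < b + 1 := by positivity
    have h1 : Real.log (((b + 1 : ℕ) : ℝ) + 1) - Real.log (b + 1) ≤ 1 / ((b + 1 : ℕ) : ℝ) := by
      have h2 := Real.log_le_sub_one_of_pos (x := (((b + 1 : ℕ) : ℝ) + 1) / (b + 1))
        (by positivity)
      rw [Real.log_div (by positivity) (by positivity)] at h2
      refine le_trans h2 (le_of_eq ?_)
      push_cast
      field_simp
      ring
    linarith

/-- `∑_{a<k≤b} 1/(k√k) ≤ 2/√a`. -/
lemma sum_inv_mul_sqrt_le (a b : ℕ) (ha : 1 ≤ a) :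
    ∑ k ∈ Ioc a b, 1 / ((k : ℝ) * Real.sqrt k) ≤ 2 / Real.sqrt a := by
  rcases le_total a b with hab | hab
  · have key : ∑ k ∈ Ioc a b, 1 / ((k : ℝ) * Real.sqrt k) ≤ 2 / Real.sqrt a - 2 / Real.sqrt b := by
      induction b, hab using Nat.le_induction with
      | base => simp
      | succ b hb ih =>
        rw [Finset.sum_Ioc_succ_top hb]
        have hb0 : (0 : ℝ) < b := by exact_mod_cast lt_of_lt_of_le ha hb
        have hs1 : 0 < Real.sqrt b := Real.sqrt_pos.mpr hb0
        have hs2 : 0 < Real.sqrt ((b + 1 : ℕ) : ℝ) := Real.sqrt_pos.mpr (by positivity)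
        have h1 : 1 / (((b + 1 : ℕ) : ℝ) * Real.sqrt ((b + 1 : ℕ) : ℝ)) ≤
            2 / Real.sqrt b - 2 / Real.sqrt ((b + 1 : ℕ) : ℝ) := by
          set s := Real.sqrt b with hs
          set t := Real.sqrt ((b + 1 : ℕ) : ℝ) with ht
          have hst : s ≤ t := Real.sqrt_le_sqrt (by push_cast; linarith)
          have e1 : s ^ 2 = b := Real.sq_sqrt hb0.le
          have e2 : t ^ 2 = ((b + 1 : ℕ) : ℝ) := Real.sq_sqrt (by positivity)
          have e3 : t ^ 2 - s ^ 2 = 1 := by rw [e1, e2]; push_cast; ring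
          rw [← e2, div_sub_div _ _ hs1.ne' hs2.ne', div_le_div_iff₀ (by positivity) (by positivity)]
          have h3 : 0 ≤ t - s := by linarith
          -- s * t ≤ 2 (t - s) t^3, as (t-s)(t+s) = 1
          have h4 : (t - s) * (t + s) = 1 := by nlinarith
          have h5 : s * (t + s) ≤ 2 * t ^ 2 := by nlinarith
          have h6 : s * t * ((t - s) * (t + s)) ≤ 2 * (t - s) * t ^ 3 := by
            have : s * (t + s) * ((t - s) * t) ≤ 2 * t ^ 2 * ((t - s) * t) :=
              mul_le_mul_of_nonneg_right h5 (mul_nonneg h3 hs2.le)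
            nlinarith
          rw [h4] at h6
          nlinarith
        linarith
    have : 0 ≤ 2 / Real.sqrt b := by positivity
    linarith
  · rw [Finset.Ioc_eq_empty_of_le hab, Finset.sum_empty]
    positivity

end Pool.Agent.Helper722.LogPoly
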