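import Mathlib
import Pool.Agent.Helper722.LogPoly.Trig
import Pool.Agent.Helper722.LogPoly.Mgf

set_option autoImplicit false
set_option linter.unusedSectionVars false

open Finset MeasureTheory ProbabilityTheory Filter Topology

namespace Pool.Agent.Helper722.LogPoly

variable {Ω : Type*} [MeasurableSpace Ω] {P : Measure Ω} [IsProbabilityMeasure P]

/-- Second moment method with weights. -/
lemma second_moment (N : ℕ) (hN : 0 < N) (w : ℕ → Ω → ℝ)
    (hw : ∀ i < N, Integrable (w i) P)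
    (hww : ∀ i < N, ∀ j < N, Integrable (fun ω => w i ω * w j ω) P) (η δ : ℝ)
    (h1 : ∀ i < N, 1 - η ≤ ∫ ω, w i ω ∂P)
    (h2 : ∑ i ∈ range N, ∑ j ∈ range N, ∫ ω, w i ω * w j ω ∂P ≤ (1 + δ) * (N : ℝ) ^ 2) :
    P.real {ω | ∀ i < N, w i ω = 0} ≤ δ + 2 * η := by
  have hN0 : (0 : ℝ) < N := by exact_mod_cast hN
  set W : Ω → ℝ := fun ω => (∑ i ∈ range N, w i ω) / N with hW
  have hWint : Integrable W P := by
    refine Integrable.div_const ?_ _
    exact integrable_finsetSum _ fun i hi => hw i (Finset.mem_range.mp hi)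
  have hW2 : ∀ ω, W ω ^ 2 = (∑ i ∈ range N, ∑ j ∈ range N, w i ω * w j ω) / (N : ℝ) ^ 2 := by
    intro ω
    rw [hW]
    simp only
    rw [div_pow, sq (∑ i ∈ range N, w i ω), Finset.sum_mul_sum]
  have hW2int : Integrable (fun ω => W ω ^ 2) P := by
    simp only [hW2]
    refine Integrable.div_const ?_ _
    refine integrable_finsetSum _ fun i hi => ?_
    exact integrable_finsetSum _ fun j hj => hww i (Finset.mem_range.mp hi) j (Finset.mem_range.mp hj)
  have hE1 : 1 - η ≤ ∫ ω, W ω ∂P := by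
    rw [hW, integral_div, integral_finsetSum _ fun i hi => hw i (Finset.mem_range.mp hi),
      le_div_iff₀ hN0]
    calc (1 - η) * N = ∑ i ∈ range N, (1 - η) := by
          rw [Finset.sum_const, Finset.card_range, nsmul_eq_mul, mul_comm]
      _ ≤ _ := Finset.sum_le_sum fun i hi => h1 i (Finset.mem_range.mp hi)
  have hE2 : ∫ ω, W ω ^ 2 ∂P ≤ 1 + δ := by
    simp only [hW2]
    rw [integral_div, div_le_iff₀ (by positivity)]
    refine le_trans (le_of_eq ?_) h2
    rw [integral_finsetSum _ fun i hi => integrable_finsetSum _ fun j hj =>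
      hww i (Finset.mem_range.mp hi) j (Finset.mem_range.mp hj)]
    refine Finset.sum_congr rfl fun i hi => ?_
    rw [integral_finsetSum _ fun j hj => hww i (Finset.mem_range.mp hi) j (Finset.mem_range.mp hj)]
  have hint : Integrable (fun ω => W ω ^ 2 - 2 * W ω + 1) P :=
    (hW2int.sub (hWint.const_mul 2)).add (integrable_const 1)
  have hE3 : ∫ ω, (W ω ^ 2 - 2 * W ω + 1) ∂P ≤ δ + 2 * η := by
    have e1 : ∫ ω, (W ω ^ 2 - 2 * W ω + 1) ∂P =
        ∫ ω, (W ω ^ 2 - 2 * W ω) ∂P + ∫ _ω, (1 : ℝ) ∂P :=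
      integral_add (hW2int.sub (hWint.const_mul 2)) (integrable_const 1)
    have e2 : ∫ ω, (W ω ^ 2 - 2 * W ω) ∂P = ∫ ω, W ω ^ 2 ∂P - ∫ ω, 2 * W ω ∂P :=
      integral_sub hW2int (hWint.const_mul 2)
    rw [e1, e2, integral_const_mul]
    simp
    linarith
  have hmk := mul_meas_ge_le_integral_of_nonneg (μ := P) (f := fun ω => W ω ^ 2 - 2 * W ω + 1)
    (Filter.Eventually.of_forall fun ω => by
      show 0 ≤ W ω ^ 2 - 2 * W ω + 1
      nlinarith [sq_nonneg (W ω - 1)]) hint 1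
  rw [one_mul] at hmk
  refine le_trans (measureReal_mono ?_ (measure_ne_top _ _)) (hmk.trans hE3)
  intro ω hω
  have hω' : ∀ i < N, w i ω = 0 := hω
  have hW0 : W ω = 0 := by
    rw [hW]
    simp only
    rw [Finset.sum_eq_zero fun i hi => hω' i (Finset.mem_range.mp hi), zero_div]
  show 1 ≤ W ω ^ 2 - 2 * W ω + 1
  rw [hW0]; norm_num

/-- Exponential moments of two-piece linear combinations. -/
lemma lin_exp {X : ℕ → Ω → ℝ} {t₀ A : ℝ} (hA : 0 < A) (hX : ExpCtl P X t₀ A) (r : ℕ)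
    (hr : 1 ≤ r) (hrt : 4 / (r : ℝ) ≤ t₀) (b n : ℕ) (hab : r ^ 2 ≤ b) (hbn : b ≤ n)
    (p q : ℕ → ℝ) (hp : ∀ k, |p k| ≤ 4) (hq : ∀ k, |q k| ≤ 4) :
    Integrable (fun ω => Real.exp (∑ k ∈ Ioc (r ^ 2) b, p k / Real.sqrt k * X k ω +
      ∑ k ∈ Ioc b n, q k / Real.sqrt k * X k ω)) P ∧
    Real.exp (∑ k ∈ Ioc (r ^ 2) b, (p k) ^ 2 / (2 * k) + ∑ k ∈ Ioc b n, (q k) ^ 2 / (2 * k) -
      128 * A / r) ≤
      ∫ ω, Real.exp (∑ k ∈ Ioc (r ^ 2) b, p k / Real.sqrt k * X k ω +
      ∑ k ∈ Ioc b n, q k / Real.sqrt k * X k ω) ∂P ∧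
    ∫ ω, Real.exp (∑ k ∈ Ioc (r ^ 2) b, p k / Real.sqrt k * X k ω +
      ∑ k ∈ Ioc b n, q k / Real.sqrt k * X k ω) ∂P ≤
      Real.exp (∑ k ∈ Ioc (r ^ 2) b, (p k) ^ 2 / (2 * k) + ∑ k ∈ Ioc b n, (q k) ^ 2 / (2 * k) +
      128 * A / r) := by
  have hr0 : (0 : ℝ) < r := by exact_mod_cast hr
  have ha1 : 1 ≤ r ^ 2 := Nat.one_le_pow _ _ hr
  have hsqa : Real.sqrt ((r ^ 2 : ℕ) : ℝ) = r := by
    push_cast; exact Real.sqrt_sq hr0.le
  set c : ℕ → ℝ := fun k => (if k ≤ b then p k else q k) / Real.sqrt k with hc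
  have hsplit : ∀ f : ℕ → ℝ → ℝ, ∑ k ∈ Ioc (r ^ 2) n, f k (if k ≤ b then p k else q k) =
      ∑ k ∈ Ioc (r ^ 2) b, f k (p k) + ∑ k ∈ Ioc b n, f k (q k) := by
    intro f
    have e : Ioc (r ^ 2) n = (Ioc (r ^ 2) b) ∪ (Ioc b n) := by
      rw [Finset.Ioc_union_Ioc_eq_Ioc hab hbn]
    rw [e, Finset.sum_union (Finset.Ioc_disjoint_Ioc_of_le le_rfl)]
    congr 1
    · refine Finset.sum_congr rfl fun k hk => ?_
      rw [if_pos (Finset.mem_Ioc.mp hk).2]
    · refine Finset.sum_congr rfl fun k hk => ?_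
      rw [if_neg (not_le.mpr (Finset.mem_Ioc.mp hk).1)]
  have hpos : ∀ k ∈ Ioc (r ^ 2) n, (0 : ℝ) < k := by
    intro k hk
    have := (Finset.mem_Ioc.mp hk).1
    exact_mod_cast (by omega : 0 < k)
  have hcabs : ∀ k ∈ Ioc (r ^ 2) n, |c k| ≤ 4 / Real.sqrt k := by
    intro k hk
    have h1 : 0 < Real.sqrt k := Real.sqrt_pos.mpr (hpos k hk)
    simp only [hc]
    rw [abs_div, abs_of_pos h1]
    apply div_le_div_of_nonneg_right _ h1.le
    split_ifs
    · exact hp k
    · exact hq k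
  have hct : ∀ k ∈ Ioc (r ^ 2) n, |c k| ≤ t₀ := by
    intro k hk
    refine (hcabs k hk).trans (le_trans ?_ hrt)
    have : (r : ℝ) ≤ Real.sqrt k := by
      rw [← hsqa]
      exact Real.sqrt_le_sqrt (by exact_mod_cast (Finset.mem_Ioc.mp hk).1.le)
    gcongr
  obtain ⟨hI, hlo, hhi⟩ := hX.2 (Ioc (r ^ 2) n) c (fun k hk => by
    have := (Finset.mem_Ioc.mp hk).1; omega) hct
  have e1 : ∀ ω, ∑ k ∈ Ioc (r ^ 2) n, c k * X k ω =
      ∑ k ∈ Ioc (r ^ 2) b, p k / Real.sqrt k * X k ω +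
      ∑ k ∈ Ioc b n, q k / Real.sqrt k * X k ω := by
    intro ω
    exact hsplit (fun k x => x / Real.sqrt k * X k ω)
  have e2 : ∑ k ∈ Ioc (r ^ 2) n, (c k) ^ 2 / 2 =
      ∑ k ∈ Ioc (r ^ 2) b, (p k) ^ 2 / (2 * k) + ∑ k ∈ Ioc b n, (q k) ^ 2 / (2 * k) := by
    rw [← hsplit (fun k x => x ^ 2 / (2 * k))]
    refine Finset.sum_congr rfl fun k hk => ?_
    simp only [hc]
    rw [div_pow, Real.sq_sqrt (hpos k hk).le]
    field_simp
  have e3 : ∑ k ∈ Ioc (r ^ 2) n, A * |c k| ^ 3 ≤ 128 * A / r := by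
    have h1 : ∀ k ∈ Ioc (r ^ 2) n, A * |c k| ^ 3 ≤ 64 * A * (1 / ((k : ℝ) * Real.sqrt k)) := by
      intro k hk
      have hk0 := hpos k hk
      have h2 : 0 < Real.sqrt k := Real.sqrt_pos.mpr hk0
      have h3 : Real.sqrt k ^ 2 = k := Real.sq_sqrt hk0.le
      have h4 : |c k| ^ 3 ≤ 64 * (1 / ((k : ℝ) * Real.sqrt k)) := by
        calc |c k| ^ 3 ≤ (4 / Real.sqrt k) ^ 3 :=
              pow_le_pow_left₀ (abs_nonneg _) (hcabs k hk) 3
          _ = 64 * (1 / (Real.sqrt k ^ 2 * Real.sqrt k)) := by field_simp; norm_num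
          _ = _ := by rw [h3]
      calc A * |c k| ^ 3 ≤ A * (64 * (1 / ((k : ℝ) * Real.sqrt k))) :=
            mul_le_mul_of_nonneg_left h4 hA.le
        _ = _ := by ring
    refine (Finset.sum_le_sum h1).trans ?_
    rw [← Finset.mul_sum]
    have h5 := sum_inv_mul_sqrt_le (r ^ 2) n ha1
    rw [hsqa] at h5
    calc 64 * A * ∑ k ∈ Ioc (r ^ 2) n, 1 / ((k : ℝ) * Real.sqrt k) ≤ 64 * A * (2 / r) := by
          gcongr
      _ = 128 * A / r := by ring
  simp only [e1] at hI hlo hhi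
  refine ⟨hI, le_trans (Real.exp_le_exp.mpr ?_) hlo, le_trans hhi (Real.exp_le_exp.mpr ?_)⟩
  · rw [Finset.sum_sub_distrib, e2]; linarith
  · rw [Finset.sum_add_distrib, e2]; linarith

/-- The angles. -/
noncomputable def th (N i : ℕ) : ℝ := Real.pi / 4 + (i : ℝ) / N

lemma half_le_sin {x : ℝ} (h1 : Real.pi / 4 ≤ x) (h2 : x ≤ Real.pi / 4 + 1) :
    1 / 2 ≤ Real.sin x := by
  have hpi := Real.pi_gt_three
  have hpi2 := Real.pi_lt_d2
  have h3 : Real.sin (Real.pi / 6) = 1 / 2 := Real.sin_pi_div_six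
  rcases le_total x (Real.pi / 2) with h | h
  · rw [← h3]
    exact Real.sin_le_sin_of_le_of_le_pi_div_two (by linarith) h (by linarith)
  · rw [← h3, ← Real.sin_pi_sub x]
    exact Real.sin_le_sin_of_le_of_le_pi_div_two (by linarith) (by linarith) (by linarith)

lemma th_mem (N i : ℕ) (hi : i < N) : Real.pi / 4 ≤ th N i ∧ th N i ≤ Real.pi / 4 + 1 := by
  have hN0 : (0 : ℝ) < N := by exact_mod_cast (lt_of_le_of_lt (Nat.zero_le i) hi)
  have h1 : (i : ℝ) / N ≤ 1 := by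
    rw [div_le_one hN0]; exact_mod_cast hi.le
  have h2 : 0 ≤ (i : ℝ) / N := by positivity
  unfold th
  constructor <;> linarith

/-- Variance of a block at one point. -/
lemma V_bound (N i a b : ℕ) (hi : i < N) (ha : 1 ≤ a) :
    |∑ k ∈ Ioc a b, Real.cos (k * th N i) ^ 2 / k - (∑ k ∈ Ioc a b, 1 / (k : ℝ)) / 2| ≤ 1 / a := by
  have ha0 : (0 : ℝ) < a := by exact_mod_cast ha
  obtain ⟨h1, h2⟩ := th_mem N i hi
  have hs := half_le_sin h1 h2
  have e : ∑ k ∈ Ioc a b, Real.cos (k * th N i) ^ 2 / k - (∑ k ∈ Ioc a b, 1 / (k : ℝ)) / 2 =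
      (∑ k ∈ Ioc a b, Real.cos (k * (2 * th N i) + 0) / k) / 2 := by
    rw [Finset.sum_div, Finset.sum_div, ← Finset.sum_sub_distrib]
    refine Finset.sum_congr rfl fun k _ => ?_
    have : Real.cos (k * (2 * th N i) + 0) = 2 * Real.cos (k * th N i) ^ 2 - 1 := by
      rw [← Real.cos_two_mul]; congr 1; ring
    rw [this]; ring
  rw [e, abs_div, abs_two]
  have hne : Real.sin (2 * th N i / 2) ≠ 0 := by
    rw [mul_div_cancel_left₀ _ (two_ne_zero)]; linarith
  have h3 := abs_sum_cos_div_le (2 * th N i) 0 hne a b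
  rw [mul_div_cancel_left₀ _ (two_ne_zero)] at h3
  have h4 : 1 / ((a + 1 : ℝ) * |Real.sin (th N i)|) ≤ 2 / a := by
    rw [abs_of_pos (by linarith), div_le_div_iff₀ (by positivity) ha0]
    nlinarith
  rw [div_le_iff₀ two_pos]
  calc _ ≤ 2 / (a : ℝ) := h3.trans h4
    _ = 1 / (a : ℝ) * 2 := by ring

/-- Covariance of a block at two points. -/
lemma C_bound (N i j a b : ℕ) (hi : i < N) (hj : j < N) (hij : i ≠ j) (ha : 1 ≤ a) :
    ∑ k ∈ Ioc a b, Real.cos (k * th N i) * Real.cos (k * th N j) / k ≤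
      Real.pi * N / (2 * a * |(i : ℝ) - j|) + 1 / a := by
  have ha0 : (0 : ℝ) < a := by exact_mod_cast ha
  have hN0 : (0 : ℝ) < N := by exact_mod_cast (lt_of_le_of_lt (Nat.zero_le i) hi)
  obtain ⟨h1, h2⟩ := th_mem N i hi
  obtain ⟨h1', h2'⟩ := th_mem N j hj
  have hpi := Real.pi_gt_three
  have hD : 0 < |(i : ℝ) - j| := abs_pos.mpr (sub_ne_zero.mpr (by exact_mod_cast hij))
  have e : ∑ k ∈ Ioc a b, Real.cos (k * th N i) * Real.cos (k * th N j) / k =
      (∑ k ∈ Ioc a b, Real.cos (k * (th N i - th N j) + 0) / k) / 2 +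
      (∑ k ∈ Ioc a b, Real.cos (k * (th N i + th N j) + 0) / k) / 2 := by
    rw [Finset.sum_div, Finset.sum_div, ← Finset.sum_add_distrib]
    refine Finset.sum_congr rfl fun k _ => ?_
    have e1 : Real.cos (k * (th N i - th N j) + 0) =
        Real.cos (k * th N i) * Real.cos (k * th N j) +
        Real.sin (k * th N i) * Real.sin (k * th N j) := by
      rw [← Real.cos_sub]; congr 1; ring
    have e2 : Real.cos (k * (th N i + th N j) + 0) =
        Real.cos (k * th N i) * Real.cos (k * th N j) -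
        Real.sin (k * th N i) * Real.sin (k * th N j) := by
      rw [← Real.cos_add]; congr 1; ring
    rw [e1, e2]; ring
  rw [e]
  -- difference term
  have hx : th N i - th N j = ((i : ℝ) - j) / N := by unfold th; ring
  have hxabs : |th N i - th N j| = |(i : ℝ) - j| / N := by
    rw [hx, abs_div, abs_of_pos hN0]
  have hxle : |th N i - th N j| ≤ 1 := by
    rw [abs_le]; constructor <;> linarith
  have hsinabs : |th N i - th N j| / Real.pi ≤ |Real.sin ((th N i - th N j) / 2)| := by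
    have h3 : |Real.sin ((th N i - th N j) / 2)| = Real.sin (|th N i - th N j| / 2) := by
      rcases abs_choice (th N i - th N j) with h | h
      · rw [h]
        apply abs_of_nonneg
        apply Real.sin_nonneg_of_nonneg_of_le_pi
        · rw [← h]; positivity
        · rw [← h]; linarith
      · rw [h]
        have e3 : Real.sin ((th N i - th N j) / 2) = -Real.sin (-(th N i - th N j) / 2) := by
          rw [neg_div, Real.sin_neg, neg_neg]
        rw [e3, abs_neg]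
        apply abs_of_nonneg
        apply Real.sin_nonneg_of_nonneg_of_le_pi
        · rw [← h]; positivity
        · rw [← h]; linarith
    rw [h3]
    have h4 := Real.mul_le_sin (x := |th N i - th N j| / 2) (by positivity) (by linarith)
    refine le_trans (le_of_eq ?_) h4
    field_simp
  have hxpos : 0 < |th N i - th N j| := by rw [hxabs]; positivity
  have hsinpos : 0 < |Real.sin ((th N i - th N j) / 2)| :=
    lt_of_lt_of_le (by positivity) hsinabs
  have h5 := abs_sum_cos_div_le (th N i - th N j) 0 (abs_pos.mp hsinpos) a b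
  have h6 : 1 / ((a + 1 : ℝ) * |Real.sin ((th N i - th N j) / 2)|) ≤
      Real.pi * N / (a * |(i : ℝ) - j|) := by
    calc 1 / ((a + 1 : ℝ) * |Real.sin ((th N i - th N j) / 2)|)
        ≤ 1 / ((a : ℝ) * (|th N i - th N j| / Real.pi)) := by
          apply one_div_le_one_div_of_le (by positivity)
          gcongr
          linarith
      _ = Real.pi * N / (a * |(i : ℝ) - j|) := by
          rw [hxabs]; field_simp
  -- sum term
  have hs := half_le_sin (x := (th N i + th N j) / 2) (by linarith) (by linarith)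
  have hne : Real.sin ((th N i + th N j) / 2) ≠ 0 := by linarith
  have h7 := abs_sum_cos_div_le (th N i + th N j) 0 hne a b
  have h8 : 1 / ((a + 1 : ℝ) * |Real.sin ((th N i + th N j) / 2)|) ≤ 2 / a := by
    rw [abs_of_pos (by linarith), div_le_div_iff₀ (by positivity) ha0]
    nlinarith
  have h9 := (le_abs_self _).trans (h5.trans h6)
  have h10 := (le_abs_self _).trans (h7.trans h8)
  have e4 : Real.pi * N / (2 * a * |(i : ℝ) - j|) + 1 / a =
      (Real.pi * N / (a * |(i : ℝ) - j|)) / 2 + (2 / a) / 2 := by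
    field_simp
  rw [e4]
  linarith

end Pool.Agent.Helper722.LogPoly
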