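import Mathlib
import Pool.Agent.Helper722.LogPoly.Lower

set_option autoImplicit false
set_option linter.unusedSectionVars false

open Finset MeasureTheory ProbabilityTheory Filter Topology

namespace Pool.Agent.Helper722.LogPoly

variable {Ω : Type*} [MeasurableSpace Ω] {P : Measure Ω} [IsProbabilityMeasure P]

noncomputable def SS (X : ℕ → Ω → ℝ) (N i a b : ℕ) (ω : Ω) : ℝ :=
  ∑ k ∈ Ioc a b, Real.cos (k * th N i) / Real.sqrt k * X k ω

noncomputable def HH (a b : ℕ) : ℝ := ∑ k ∈ Ioc a b, 1 / (k : ℝ)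

noncomputable def VV (N i a b : ℕ) : ℝ := ∑ k ∈ Ioc a b, Real.cos (k * th N i) ^ 2 / k

noncomputable def CC (N i j a b : ℕ) : ℝ :=
  ∑ k ∈ Ioc a b, Real.cos (k * th N i) * Real.cos (k * th N j) / k

lemma SS_split (X : ℕ → Ω → ℝ) (N i a b n : ℕ) (hab : a ≤ b) (hbn : b ≤ n) (ω : Ω) :
    SS X N i a n ω = SS X N i a b ω + SS X N i b n ω := by
  unfold SS
  rw [← Finset.Ioc_union_Ioc_eq_Ioc hab hbn,
    Finset.sum_union (Finset.Ioc_disjoint_Ioc_of_le le_rfl)]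

lemma VV_split (N i a b n : ℕ) (hab : a ≤ b) (hbn : b ≤ n) :
    VV N i a n = VV N i a b + VV N i b n := by
  unfold VV
  rw [← Finset.Ioc_union_Ioc_eq_Ioc hab hbn,
    Finset.sum_union (Finset.Ioc_disjoint_Ioc_of_le le_rfl)]

lemma HH_nonneg (a b : ℕ) : 0 ≤ HH a b := Finset.sum_nonneg fun k _ => by positivity

lemma HH_mono (a b c : ℕ) (h : b ≤ c) : HH a b ≤ HH a c := by
  unfold HH
  apply Finset.sum_le_sum_of_subset_of_nonneg
  · intro k hk; simp only [Finset.mem_Ioc] at *; omega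
  · intros; positivity

lemma VV_bounds (N i a b : ℕ) (hi : i < N) (ha : 1 ≤ a) :
    HH a b / 2 - 1 / a ≤ VV N i a b ∧ VV N i a b ≤ HH a b / 2 + 1 / a := by
  have h := abs_le.mp (V_bound N i a b hi ha)
  unfold VV HH
  constructor <;> linarith [h.1, h.2]

lemma measurable_SS {X : ℕ → Ω → ℝ} (hX : ∀ k, Measurable (X k)) (N i a b : ℕ) :
    Measurable (SS X N i a b) := by
  unfold SS
  exact Finset.measurable_fun_sum _ fun k _ => (hX k).const_mul _

/-- One-point exponential moments. -/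
lemma one_point {X : ℕ → Ω → ℝ} {t₀ A : ℝ} (hA : 0 < A) (hX : ExpCtl P X t₀ A) (r : ℕ)
    (hr : 1 ≤ r) (hrt : 4 / (r : ℝ) ≤ t₀) (b n : ℕ) (hab : r ^ 2 ≤ b) (hbn : b ≤ n)
    (N i : ℕ) (α β : ℝ) (hα : |α| ≤ 4) (hβ : |β| ≤ 4) :
    Integrable (fun ω => Real.exp (α * SS X N i (r ^ 2) b ω + β * SS X N i b n ω)) P ∧
    Real.exp (α ^ 2 / 2 * VV N i (r ^ 2) b + β ^ 2 / 2 * VV N i b n - 128 * A / r) ≤
      ∫ ω, Real.exp (α * SS X N i (r ^ 2) b ω + β * SS X N i b n ω) ∂P ∧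
    ∫ ω, Real.exp (α * SS X N i (r ^ 2) b ω + β * SS X N i b n ω) ∂P ≤
      Real.exp (α ^ 2 / 2 * VV N i (r ^ 2) b + β ^ 2 / 2 * VV N i b n + 128 * A / r) := by
  have hbd : ∀ γ : ℝ, |γ| ≤ 4 → ∀ k : ℕ, |γ * Real.cos (k * th N i)| ≤ 4 := by
    intro γ hγ k
    rw [abs_mul]
    have := Real.abs_cos_le_one (k * th N i)
    nlinarith [abs_nonneg γ, abs_nonneg (Real.cos (k * th N i))]
  have h := lin_exp hA hX r hr hrt b n hab hbn (fun k => α * Real.cos (k * th N i))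
    (fun k => β * Real.cos (k * th N i)) (hbd α hα) (hbd β hβ)
  have e1 : ∀ (γ : ℝ) (c d : ℕ) (ω : Ω), ∑ k ∈ Ioc c d, γ * Real.cos (k * th N i) / Real.sqrt k * X k ω =
      γ * SS X N i c d ω := by
    intro γ c d ω
    unfold SS
    rw [Finset.mul_sum]
    exact Finset.sum_congr rfl fun k _ => by ring
  have e2 : ∀ (γ : ℝ) (c d : ℕ), ∑ k ∈ Ioc c d, (γ * Real.cos (k * th N i)) ^ 2 / (2 * k) =
      γ ^ 2 / 2 * VV N i c d := by
    intro γ c d
    unfold VV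
    rw [Finset.mul_sum]
    exact Finset.sum_congr rfl fun k _ => by ring
  simp only [e1, e2] at h
  exact h

/-- Two-point exponential moments. -/
lemma two_point {X : ℕ → Ω → ℝ} {t₀ A : ℝ} (hA : 0 < A) (hX : ExpCtl P X t₀ A) (r : ℕ)
    (hr : 1 ≤ r) (hrt : 4 / (r : ℝ) ≤ t₀) (b n : ℕ) (hab : r ^ 2 ≤ b) (hbn : b ≤ n)
    (N i j : ℕ) (α β : ℝ) (hα : |α| ≤ 2) (hβ : |β| ≤ 2) :
    Integrable (fun ω => Real.exp (α * (SS X N i (r ^ 2) b ω + SS X N j (r ^ 2) b ω) +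
      β * (SS X N i b n ω + SS X N j b n ω))) P ∧
    ∫ ω, Real.exp (α * (SS X N i (r ^ 2) b ω + SS X N j (r ^ 2) b ω) +
      β * (SS X N i b n ω + SS X N j b n ω)) ∂P ≤
      Real.exp (α ^ 2 * (VV N i (r ^ 2) b + VV N j (r ^ 2) b) +
        β ^ 2 / 2 * (VV N i b n + VV N j b n + 2 * CC N i j b n) + 128 * A / r) := by
  have hbd : ∀ γ : ℝ, |γ| ≤ 2 → ∀ k : ℕ, |γ * (Real.cos (k * th N i) + Real.cos (k * th N j))| ≤ 4 := by
    intro γ hγ k
    rw [abs_mul]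
    have h1 := Real.abs_cos_le_one (k * th N i)
    have h2 := Real.abs_cos_le_one (k * th N j)
    have h3 := abs_add_le (Real.cos (k * th N i)) (Real.cos (k * th N j))
    nlinarith [abs_nonneg γ, abs_nonneg (Real.cos (k * th N i) + Real.cos (k * th N j))]
  obtain ⟨h, -, h'⟩ := lin_exp hA hX r hr hrt b n hab hbn
    (fun k => α * (Real.cos (k * th N i) + Real.cos (k * th N j)))
    (fun k => β * (Real.cos (k * th N i) + Real.cos (k * th N j))) (hbd α hα) (hbd β hβ)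
  have e1 : ∀ (γ : ℝ) (c d : ℕ) (ω : Ω),
      ∑ k ∈ Ioc c d, γ * (Real.cos (k * th N i) + Real.cos (k * th N j)) / Real.sqrt k * X k ω =
      γ * (SS X N i c d ω + SS X N j c d ω) := by
    intro γ c d ω
    unfold SS
    rw [← Finset.sum_add_distrib, Finset.mul_sum]
    exact Finset.sum_congr rfl fun k _ => by ring
  have e2 : ∀ (γ : ℝ) (c d : ℕ),
      ∑ k ∈ Ioc c d, (γ * (Real.cos (k * th N i) + Real.cos (k * th N j))) ^ 2 / (2 * k) =
      γ ^ 2 / 2 * (VV N i c d + VV N j c d + 2 * CC N i j c d) := by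
    intro γ c d
    unfold VV CC
    rw [Finset.mul_sum, ← Finset.sum_add_distrib, ← Finset.sum_add_distrib, Finset.mul_sum]
    exact Finset.sum_congr rfl fun k _ => by ring
  have e3 : ∀ (c d : ℕ), 2 * CC N i j c d ≤ VV N i c d + VV N j c d := by
    intro c d
    unfold VV CC
    rw [Finset.mul_sum, ← Finset.sum_add_distrib]
    refine Finset.sum_le_sum fun k _ => ?_
    have : 2 * (Real.cos (k * th N i) * Real.cos (k * th N j)) ≤
        Real.cos (k * th N i) ^ 2 + Real.cos (k * th N j) ^ 2 := by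
      nlinarith [sq_nonneg (Real.cos (k * th N i) - Real.cos (k * th N j))]
    calc 2 * (Real.cos (k * th N i) * Real.cos (k * th N j) / k) =
        (2 * (Real.cos (k * th N i) * Real.cos (k * th N j))) / k := by ring
      _ ≤ (Real.cos (k * th N i) ^ 2 + Real.cos (k * th N j) ^ 2) / k := by gcongr
      _ = _ := by ring
  simp only [e1, e2] at h h'
  refine ⟨h, h'.trans (Real.exp_le_exp.mpr ?_)⟩
  have h4 := e3 (r ^ 2) b
  have h5 : α ^ 2 / 2 * (VV N i (r ^ 2) b + VV N j (r ^ 2) b + 2 * CC N i j (r ^ 2) b) ≤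
      α ^ 2 / 2 * (VV N i (r ^ 2) b + VV N j (r ^ 2) b + (VV N i (r ^ 2) b + VV N j (r ^ 2) b)) := by
    gcongr
  linarith

/-- The scales. -/
def bb (r K n m : ℕ) : ℕ := if m < K then r ^ m else n

lemma bb_bounds (r K n m : ℕ) (hr : 1 ≤ r) (hK : 2 ≤ K) (hn : r ^ K ≤ n) (hm : 2 ≤ m) :
    r ^ 2 ≤ bb r K n m ∧ bb r K n m ≤ n := by
  unfold bb
  split_ifs with h
  · exact ⟨Nat.pow_le_pow_right hr hm, (Nat.pow_le_pow_right hr h.le).trans hn⟩
  · exact ⟨(Nat.pow_le_pow_right hr hK).trans hn, le_rfl⟩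

lemma bb_three (r K n m : ℕ) (hr : 1 ≤ r) (hK : 3 ≤ K) (hn : r ^ K ≤ n) (hm : 3 ≤ m) :
    r ^ 3 ≤ bb r K n m := by
  unfold bb
  split_ifs with h
  · exact Nat.pow_le_pow_right hr hm
  · exact (Nat.pow_le_pow_right hr hK).trans hn

/-- The truncation event. -/
def II (X : ℕ → Ω → ℝ) (s : ℝ) (r K n N i : ℕ) : Set Ω :=
  {ω | (∀ m ∈ Icc 3 K, SS X N i (r ^ 2) (bb r K n m) ω ≤
      (1 - s) * (1 + s) * HH (r ^ 2) (bb r K n m)) ∧
    (1 - s) * (1 - s) * HH (r ^ 2) n ≤ SS X N i (r ^ 2) n ω}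

lemma measurableSet_II {X : ℕ → Ω → ℝ} (hX : ∀ k, Measurable (X k)) (s : ℝ)
    (r K n N i : ℕ) : MeasurableSet (II X s r K n N i) := by
  have e : II X s r K n N i = (⋂ m ∈ Icc 3 K, {ω | SS X N i (r ^ 2) (bb r K n m) ω ≤
      (1 - s) * (1 + s) * HH (r ^ 2) (bb r K n m)}) ∩
      {ω | (1 - s) * (1 - s) * HH (r ^ 2) n ≤ SS X N i (r ^ 2) n ω} := by
    ext ω
    simp [II]
  rw [e]
  refine MeasurableSet.inter ?_ (measurableSet_le measurable_const (measurable_SS hX _ _ _ _))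
  exact Finset.measurableSet_biInter _ fun m _ =>
    measurableSet_le (measurable_SS hX _ _ _ _) measurable_const

/-- normalising constant -/
noncomputable def ZZ (P : Measure Ω) (X : ℕ → Ω → ℝ) (s : ℝ) (r n N i : ℕ) : ℝ :=
  ∫ ω, Real.exp (2 * (1 - s) * SS X N i (r ^ 2) n ω) ∂P

/-- weights -/
noncomputable def ww (P : Measure Ω) (X : ℕ → Ω → ℝ) (s : ℝ) (r K n N i : ℕ) : Ω → ℝ :=
  (II X s r K n N i).indicator
    (fun ω => Real.exp (2 * (1 - s) * SS X N i (r ^ 2) n ω) / ZZ P X s r n N i)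

end Pool.Agent.Helper722.LogPoly
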