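import Mathlib
import Pool.Agent.Helper722.LogPoly.Lower2

set_option autoImplicit false
set_option maxHeartbeats 4000000
set_option linter.unusedSectionVars false

open Finset MeasureTheory ProbabilityTheory Filter Topology

namespace Pool.Agent.Helper722.LogPoly

variable {Ω : Type*} [MeasurableSpace Ω] {P : Measure Ω} [IsProbabilityMeasure P]

lemma ZZ_bounds {X : ℕ → Ω → ℝ} {t₀ A : ℝ} (hA : 0 < A) (hX : ExpCtl P X t₀ A) (r : ℕ)
    (hr : 1 ≤ r) (hrt : 4 / (r : ℝ) ≤ t₀) (n : ℕ) (hn : r ^ 2 ≤ n) (N i : ℕ) (s : ℝ)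
    (hs0 : 0 < s) (hs1 : s < 1) :
    Integrable (fun ω => Real.exp (2 * (1 - s) * SS X N i (r ^ 2) n ω)) P ∧
    Real.exp ((2 * (1 - s)) ^ 2 / 2 * VV N i (r ^ 2) n - 128 * A / r) ≤ ZZ P X s r n N i := by
  have h := one_point hA hX r hr hrt n n hn le_rfl N i (2 * (1 - s)) 0
    (by rw [abs_of_nonneg (by linarith)]; linarith) (by simp)
  simp only [zero_mul, add_zero] at h
  refine ⟨h.1, ?_⟩
  have h2 := h.2.1
  unfold ZZ
  refine le_trans (le_of_eq ?_) h2
  congr 1
  ring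

lemma ZZ_pos {X : ℕ → Ω → ℝ} {t₀ A : ℝ} (hA : 0 < A) (hX : ExpCtl P X t₀ A) (r : ℕ)
    (hr : 1 ≤ r) (hrt : 4 / (r : ℝ) ≤ t₀) (n : ℕ) (hn : r ^ 2 ≤ n) (N i : ℕ) (s : ℝ)
    (hs0 : 0 < s) (hs1 : s < 1) : 0 < ZZ P X s r n N i :=
  lt_of_lt_of_le (Real.exp_pos _) (ZZ_bounds hA hX r hr hrt n hn N i s hs0 hs1).2

lemma first_moment {X : ℕ → Ω → ℝ} {t₀ A : ℝ} (hA : 0 < A) (hX : ExpCtl P X t₀ A) (r : ℕ)
    (hr : 1 ≤ r) (hrt : 4 / (r : ℝ) ≤ t₀) (K n : ℕ) (hK : 3 ≤ K) (hn : r ^ K ≤ n) (N i : ℕ)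
    (hi : i < N) (s : ℝ) (hs0 : 0 < s) (hs1 : s < 1) :
    1 - K * Real.exp (-((1 - s) ^ 2 * s ^ 2 * HH (r ^ 2) (r ^ 3)) + 6 + 256 * A / r) ≤
      ∫ ω, ww P X s r K n N i ω ∂P := by
  have hr0 : (0 : ℝ) < r := by exact_mod_cast hr
  have ha1 : 1 ≤ r ^ 2 := Nat.one_le_pow _ _ hr
  have hn2 : r ^ 2 ≤ n := (Nat.pow_le_pow_right hr (by omega)).trans hn
  set lam : ℝ := 2 * (1 - s) with hlam
  set η : ℝ := lam * s with hη
  have hlam0 : 0 < lam := by rw [hlam]; linarith
  have hlam2 : lam ≤ 2 := by rw [hlam]; linarith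
  have hη0 : 0 < η := by positivity
  have hη2 : η ≤ 2 := by rw [hη]; nlinarith
  set Z := ZZ P X s r n N i with hZ
  have hZpos : 0 < Z := ZZ_pos hA hX r hr hrt n hn2 N i s hs0 hs1
  obtain ⟨hI0, hZlow⟩ := ZZ_bounds hA hX r hr hrt n hn2 N i s hs0 hs1
  rw [← hlam, ← hZ] at hZlow
  rw [← hlam] at hI0
  set E := Real.exp (-((1 - s) ^ 2 * s ^ 2 * HH (r ^ 2) (r ^ 3)) + 6 + 256 * A / r) with hE
  set S : Ω → ℝ := SS X N i (r ^ 2) n with hS
  -- truncation terms
  set F : ℕ → Ω → ℝ := fun m ω => Real.exp (lam * S ω + η * (SS X N i (r ^ 2) (bb r K n m) ω -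
    (1 - s) * (1 + s) * HH (r ^ 2) (bb r K n m))) with hF
  set G : Ω → ℝ := fun ω => Real.exp (lam * S ω + η * ((1 - s) * (1 - s) * HH (r ^ 2) n - S ω))
    with hG
  have h2a : (2 : ℝ) / ((r ^ 2 : ℕ) : ℝ) ≤ 2 := by
    rw [div_le_iff₀ (by exact_mod_cast ha1)]
    have : (1 : ℝ) ≤ ((r ^ 2 : ℕ) : ℝ) := by exact_mod_cast ha1
    linarith
  have hinv : 1 / ((r ^ 2 : ℕ) : ℝ) ≤ 1 := by
    rw [div_le_one (by exact_mod_cast ha1)]; exact_mod_cast ha1
  have hinv0 : 0 ≤ 1 / ((r ^ 2 : ℕ) : ℝ) := by positivity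
  have hFint : ∀ m ∈ Icc 3 K, Integrable (F m) P ∧ ∫ ω, F m ω ∂P ≤ E * Z := by
    intro m hm
    rw [Finset.mem_Icc] at hm
    obtain ⟨hb1, hb2⟩ := bb_bounds r K n m hr (by omega) hn (by omega)
    have hb3 := bb_three r K n m hr hK hn hm.1
    set b := bb r K n m with hb
    obtain ⟨hI, -, hU⟩ := one_point hA hX r hr hrt b n hb1 hb2 N i (lam + η) lam
      (by rw [abs_of_pos (by positivity)]; linarith) (by rw [abs_of_pos hlam0]; linarith)
    have e : ∀ ω, F m ω = Real.exp (-(η * ((1 - s) * (1 + s) * HH (r ^ 2) b))) *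
        Real.exp ((lam + η) * SS X N i (r ^ 2) b ω + lam * SS X N i b n ω) := by
      intro ω
      simp only [hF]
      rw [← Real.exp_add, hS, SS_split X N i (r ^ 2) b n hb1 hb2]
      congr 1
      rw [← hb]
      ring
    constructor
    · have : F m = fun ω => Real.exp (-(η * ((1 - s) * (1 + s) * HH (r ^ 2) b))) *
        Real.exp ((lam + η) * SS X N i (r ^ 2) b ω + lam * SS X N i b n ω) := funext e
      rw [this]
      exact hI.const_mul _
    · simp only [e]
      rw [integral_const_mul]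
      have hV := (VV_bounds N i (r ^ 2) b hi ha1).2
      have hsplit := VV_split N i (r ^ 2) b n hb1 hb2
      have hH : HH (r ^ 2) (r ^ 3) ≤ HH (r ^ 2) b := HH_mono _ _ _ hb3
      calc Real.exp (-(η * ((1 - s) * (1 + s) * HH (r ^ 2) b))) *
          ∫ ω, Real.exp ((lam + η) * SS X N i (r ^ 2) b ω + lam * SS X N i b n ω) ∂P
          ≤ Real.exp (-(η * ((1 - s) * (1 + s) * HH (r ^ 2) b))) *
            Real.exp ((lam + η) ^ 2 / 2 * VV N i (r ^ 2) b + lam ^ 2 / 2 * VV N i b n +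
              128 * A / r) := by gcongr
        _ = Real.exp (-(η * ((1 - s) * (1 + s) * HH (r ^ 2) b)) +
              ((lam * η + η ^ 2 / 2) * VV N i (r ^ 2) b + 256 * A / r)) *
            Real.exp (lam ^ 2 / 2 * VV N i (r ^ 2) n - 128 * A / r) := by
            rw [← Real.exp_add, ← Real.exp_add]; congr 1; rw [hsplit]; ring
        _ ≤ E * Z := by
            apply mul_le_mul _ hZlow (Real.exp_pos _).le (Real.exp_pos _).le
            apply Real.exp_le_exp.mpr
            have h1 : (lam * η + η ^ 2 / 2) * VV N i (r ^ 2) b ≤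
                (lam * η + η ^ 2 / 2) * (HH (r ^ 2) b / 2 + 1 / ((r ^ 2 : ℕ) : ℝ)) := by
              apply mul_le_mul_of_nonneg_left hV (by positivity)
            have h2 : (lam * η + η ^ 2 / 2) * (1 / ((r ^ 2 : ℕ) : ℝ)) ≤ 6 := by
              have h3 : lam * η + η ^ 2 / 2 ≤ 6 := by nlinarith
              have h4 : 0 ≤ lam * η + η ^ 2 / 2 := by positivity
              nlinarith
            have h3 : -(η * ((1 - s) * (1 + s) * HH (r ^ 2) b)) +
                (lam * η + η ^ 2 / 2) * (HH (r ^ 2) b / 2) =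
                -((1 - s) ^ 2 * s ^ 2 * HH (r ^ 2) b) := by
              rw [hη, hlam]; ring
            have h4 : (1 - s) ^ 2 * s ^ 2 * HH (r ^ 2) (r ^ 3) ≤
                (1 - s) ^ 2 * s ^ 2 * HH (r ^ 2) b := by gcongr
            linarith [h1, h2, h3, h4, mul_add (lam * η + η ^ 2 / 2) (HH (r ^ 2) b / 2)
              (1 / ((r ^ 2 : ℕ) : ℝ))]
  have hGint : Integrable G P ∧ ∫ ω, G ω ∂P ≤ E * Z := by
    obtain ⟨hI, -, hU⟩ := one_point hA hX r hr hrt n n hn2 le_rfl N i (lam - η) 0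
      (by rw [abs_of_nonneg (by rw [hη]; nlinarith)]; linarith) (by simp)
    simp only [zero_mul, add_zero] at hI hU
    have e : ∀ ω, G ω = Real.exp (η * ((1 - s) * (1 - s) * HH (r ^ 2) n)) *
        Real.exp ((lam - η) * SS X N i (r ^ 2) n ω) := by
      intro ω
      simp only [hG]
      rw [← Real.exp_add, hS]
      congr 1
      ring
    constructor
    · have : G = fun ω => Real.exp (η * ((1 - s) * (1 - s) * HH (r ^ 2) n)) *
        Real.exp ((lam - η) * SS X N i (r ^ 2) n ω) := funext e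
      rw [this]
      exact hI.const_mul _
    · simp only [e]
      rw [integral_const_mul]
      have hV := (VV_bounds N i (r ^ 2) n hi ha1).1
      have hH : HH (r ^ 2) (r ^ 3) ≤ HH (r ^ 2) n :=
        HH_mono _ _ _ ((Nat.pow_le_pow_right hr hK).trans hn)
      calc Real.exp (η * ((1 - s) * (1 - s) * HH (r ^ 2) n)) *
          ∫ ω, Real.exp ((lam - η) * SS X N i (r ^ 2) n ω) ∂P
          ≤ Real.exp (η * ((1 - s) * (1 - s) * HH (r ^ 2) n)) *
            Real.exp ((lam - η) ^ 2 / 2 * VV N i (r ^ 2) n + 0 ^ 2 / 2 * VV N i n n +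
              128 * A / r) := by gcongr
        _ = Real.exp (η * ((1 - s) * (1 - s) * HH (r ^ 2) n) +
              (-((lam * η - η ^ 2 / 2) * VV N i (r ^ 2) n) + 256 * A / r)) *
            Real.exp (lam ^ 2 / 2 * VV N i (r ^ 2) n - 128 * A / r) := by
            rw [← Real.exp_add, ← Real.exp_add]; congr 1; ring
        _ ≤ E * Z := by
            apply mul_le_mul _ hZlow (Real.exp_pos _).le (Real.exp_pos _).le
            apply Real.exp_le_exp.mpr
            have hpos : 0 ≤ lam * η - η ^ 2 / 2 := by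
              have : lam * η - η ^ 2 / 2 = lam ^ 2 * s * (1 - s / 2) := by rw [hη]; ring
              rw [this]
              have : 0 ≤ 1 - s / 2 := by linarith
              positivity
            have h1 : (lam * η - η ^ 2 / 2) * (HH (r ^ 2) n / 2 - 1 / ((r ^ 2 : ℕ) : ℝ)) ≤
                (lam * η - η ^ 2 / 2) * VV N i (r ^ 2) n :=
              mul_le_mul_of_nonneg_left hV hpos
            have h2 : (lam * η - η ^ 2 / 2) * (1 / ((r ^ 2 : ℕ) : ℝ)) ≤ 6 := by
              have h3 : lam * η - η ^ 2 / 2 ≤ 6 := by nlinarith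
              nlinarith
            have h3 : η * ((1 - s) * (1 - s) * HH (r ^ 2) n) -
                (lam * η - η ^ 2 / 2) * (HH (r ^ 2) n / 2) =
                -((1 - s) ^ 2 * s ^ 2 * HH (r ^ 2) n) := by
              rw [hη, hlam]; ring
            have h4 : (1 - s) ^ 2 * s ^ 2 * HH (r ^ 2) (r ^ 3) ≤
                (1 - s) ^ 2 * s ^ 2 * HH (r ^ 2) n := by gcongr
            linarith [h1, h2, h3, h4, mul_sub (lam * η - η ^ 2 / 2) (HH (r ^ 2) n / 2)
              (1 / ((r ^ 2 : ℕ) : ℝ))]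
  -- pointwise lower bound
  have hpt : ∀ ω, (Real.exp (lam * S ω) - ∑ m ∈ Icc 3 K, F m ω - G ω) / Z ≤
      ww P X s r K n N i ω := by
    intro ω
    have hFnn : ∀ m ∈ Icc 3 K, 0 ≤ F m ω := fun m _ => (Real.exp_pos _).le
    have hGnn : 0 ≤ G ω := (Real.exp_pos _).le
    have hsumnn : 0 ≤ ∑ m ∈ Icc 3 K, F m ω := Finset.sum_nonneg hFnn
    unfold ww
    rw [← hlam, ← hZ, ← hS]
    by_cases hω : ω ∈ II X s r K n N i
    · rw [Set.indicator_of_mem hω]
      gcongr
      linarith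
    · rw [Set.indicator_of_notMem hω]
      apply div_nonpos_of_nonpos_of_nonneg _ hZpos.le
      have : ¬ ((∀ m ∈ Icc 3 K, SS X N i (r ^ 2) (bb r K n m) ω ≤
        (1 - s) * (1 + s) * HH (r ^ 2) (bb r K n m)) ∧
        (1 - s) * (1 - s) * HH (r ^ 2) n ≤ SS X N i (r ^ 2) n ω) := hω
      rw [not_and_or] at this
      rcases this with h | h
      · push Not at h
        obtain ⟨m, hm, hlt⟩ := h
        have h1 : Real.exp (lam * S ω) ≤ F m ω := by
          simp only [hF]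
          apply Real.exp_le_exp.mpr
          have : 0 ≤ η * (SS X N i (r ^ 2) (bb r K n m) ω -
            (1 - s) * (1 + s) * HH (r ^ 2) (bb r K n m)) :=
            mul_nonneg hη0.le (by linarith)
          linarith
        have h2 : F m ω ≤ ∑ m ∈ Icc 3 K, F m ω := Finset.single_le_sum hFnn hm
        linarith
      · rw [not_le] at h
        have h1 : Real.exp (lam * S ω) ≤ G ω := by
          simp only [hG]
          apply Real.exp_le_exp.mpr
          have : 0 ≤ η * ((1 - s) * (1 - s) * HH (r ^ 2) n - S ω) :=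
            mul_nonneg hη0.le (by rw [hS]; linarith)
          linarith
        linarith
  have hwint : Integrable (ww P X s r K n N i) P := by
    unfold ww
    refine Integrable.indicator ?_ (measurableSet_II hX.1 s r K n N i)
    exact hI0.div_const _
  have hLint : Integrable (fun ω => (Real.exp (lam * S ω) - ∑ m ∈ Icc 3 K, F m ω - G ω) / Z) P := by
    refine Integrable.div_const ?_ _
    exact (hI0.sub (integrable_finsetSum _ fun m hm => (hFint m hm).1)).sub hGint.1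
  refine le_trans ?_ (integral_mono hLint hwint hpt)
  rw [integral_div]
  have e1 : ∫ ω, (Real.exp (lam * S ω) - ∑ m ∈ Icc 3 K, F m ω - G ω) ∂P =
      Z - ∑ m ∈ Icc 3 K, ∫ ω, F m ω ∂P - ∫ ω, G ω ∂P := by
    have s1 : ∫ ω, (Real.exp (lam * S ω) - ∑ m ∈ Icc 3 K, F m ω - G ω) ∂P =
        ∫ ω, (Real.exp (lam * S ω) - ∑ m ∈ Icc 3 K, F m ω) ∂P - ∫ ω, G ω ∂P :=
      integral_sub (hI0.sub (integrable_finsetSum _ fun m hm => (hFint m hm).1)) hGint.1
    have s2 : ∫ ω, (Real.exp (lam * S ω) - ∑ m ∈ Icc 3 K, F m ω) ∂P =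
        ∫ ω, Real.exp (lam * S ω) ∂P - ∫ ω, ∑ m ∈ Icc 3 K, F m ω ∂P :=
      integral_sub hI0 (integrable_finsetSum _ fun m hm => (hFint m hm).1)
    rw [s1, s2, integral_finsetSum _ fun m hm => (hFint m hm).1]
    rfl
  rw [e1, le_div_iff₀ hZpos]
  have hsum : ∑ m ∈ Icc 3 K, ∫ ω, F m ω ∂P ≤ ((K : ℝ) - 2) * (E * Z) := by
    calc ∑ m ∈ Icc 3 K, ∫ ω, F m ω ∂P ≤ ∑ m ∈ Icc 3 K, E * Z :=
          Finset.sum_le_sum fun m hm => (hFint m hm).2
      _ = ((K : ℝ) - 2) * (E * Z) := by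
          rw [Finset.sum_const, Nat.card_Icc, nsmul_eq_mul, Nat.cast_sub (by omega)]
          push_cast; ring
  have hEZ : 0 ≤ E * Z := by positivity
  nlinarith [hGint.2, hsum, hEZ]

end Pool.Agent.Helper722.LogPoly
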