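import Mathlib
import Pool.Agent.Helper722.LogPoly.Lower3

set_option autoImplicit false
set_option maxHeartbeats 4000000
set_option linter.unusedSectionVars false

open Finset MeasureTheory ProbabilityTheory Filter Topology

namespace Pool.Agent.Helper722.LogPoly

variable {Ω : Type*} [MeasurableSpace Ω] {P : Measure Ω} [IsProbabilityMeasure P]

lemma ww_nonneg {X : ℕ → Ω → ℝ} (s : ℝ) (r K n N i : ℕ) (hZ : 0 < ZZ P X s r n N i) (ω : Ω) :
    0 ≤ ww P X s r K n N i ω := by
  unfold ww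
  apply Set.indicator_nonneg
  intro ω _
  positivity

lemma ww_measurable {X : ℕ → Ω → ℝ} (hX : ∀ k, Measurable (X k)) (s : ℝ) (r K n N i : ℕ) :
    Measurable (ww P X s r K n N i) := by
  unfold ww
  refine Measurable.indicator ?_ (measurableSet_II hX s r K n N i)
  exact ((measurable_SS hX _ _ _ _).const_mul _).exp.div_const _

/-- General pair bound with truncation at scale `m`. -/
lemma pair_gen {X : ℕ → Ω → ℝ} {t₀ A : ℝ} (hA : 0 < A) (hX : ExpCtl P X t₀ A) (r : ℕ)
    (hr : 1 ≤ r) (hrt : 4 / (r : ℝ) ≤ t₀) (K n : ℕ) (hK : 3 ≤ K) (hn : r ^ K ≤ n) (N i j : ℕ)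
    (hi : i < N) (hj : j < N) (s : ℝ) (hs0 : 0 < s) (hs1 : s < 1) (m : ℕ) (hm2 : 2 ≤ m)
    (hmK : m ≤ K) :
    Integrable (fun ω => ww P X s r K n N i ω * ww P X s r K n N j ω) P ∧
    ∫ ω, ww P X s r K n N i ω * ww P X s r K n N j ω ∂P ≤
      Real.exp (HH (r ^ 2) (bb r K n m) + 2 + 4 * max 0 (CC N i j (bb r K n m) n) +
        384 * A / r) := by
  have hr0 : (0 : ℝ) < r := by exact_mod_cast hr
  have ha1 : 1 ≤ r ^ 2 := Nat.one_le_pow _ _ hr
  have hn2 : r ^ 2 ≤ n := (Nat.pow_le_pow_right hr (by omega)).trans hn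
  obtain ⟨hb1, hb2⟩ := bb_bounds r K n m hr (by omega) hn hm2
  set b := bb r K n m with hb
  set lam : ℝ := 2 * (1 - s) with hlam
  have hlam0 : 0 < lam := by rw [hlam]; linarith
  have hlam2 : lam ≤ 2 := by rw [hlam]; linarith
  have hZi : 0 < ZZ P X s r n N i := ZZ_pos hA hX r hr hrt n hn2 N i s hs0 hs1
  have hZj : 0 < ZZ P X s r n N j := ZZ_pos hA hX r hr hrt n hn2 N j s hs0 hs1
  have hZi' := (ZZ_bounds hA hX r hr hrt n hn2 N i s hs0 hs1).2
  have hZj' := (ZZ_bounds hA hX r hr hrt n hn2 N j s hs0 hs1).2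
  rw [← hlam] at hZi' hZj'
  set Zi := ZZ P X s r n N i with hZidef
  set Zj := ZZ P X s r n N j with hZjdef
  obtain ⟨hI, hU⟩ := two_point hA hX r hr hrt b n hb1 hb2 N i j (lam / 2) lam
    (by rw [abs_of_pos (by positivity)]; linarith) (by rw [abs_of_pos hlam0]; linarith)
  set u : ℝ := (1 - s) * (1 + s) * HH (r ^ 2) b with hu
  set D : Ω → ℝ := fun ω => Real.exp (lam * u) / (Zi * Zj) *
    Real.exp (lam / 2 * (SS X N i (r ^ 2) b ω + SS X N j (r ^ 2) b ω) +
      lam * (SS X N i b n ω + SS X N j b n ω)) with hD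
  have hDint : Integrable D P := hI.const_mul _
  -- constraint
  have hcon : ∀ (l : ℕ) (ω : Ω), ω ∈ II X s r K n N l → SS X N l (r ^ 2) b ω ≤ u := by
    intro l ω hω
    rcases Nat.lt_or_ge m 3 with h | h
    · have hm : m = 2 := by omega
      have hbe : b = r ^ 2 := by
        rw [hb, hm]; unfold bb; rw [if_pos (by omega)]
      rw [hu, hbe]
      unfold SS HH
      simp
    · exact hω.1 m (Finset.mem_Icc.mpr ⟨h, hmK⟩)
  have hdom : ∀ ω, ww P X s r K n N i ω * ww P X s r K n N j ω ≤ D ω := by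
    intro ω
    have hDnn : 0 ≤ D ω := by
      simp only [hD]; positivity
    by_cases h1 : ω ∈ II X s r K n N i
    · by_cases h2 : ω ∈ II X s r K n N j
      · unfold ww
        rw [Set.indicator_of_mem h1, Set.indicator_of_mem h2, ← hlam, ← hZidef, ← hZjdef]
        simp only [hD]
        have c1 := hcon i ω h1
        have c2 := hcon j ω h2
        have e1 : Real.exp (lam * SS X N i (r ^ 2) n ω) / Zi *
            (Real.exp (lam * SS X N j (r ^ 2) n ω) / Zj) =
            Real.exp (lam * SS X N i (r ^ 2) n ω + lam * SS X N j (r ^ 2) n ω) / (Zi * Zj) := by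
          rw [Real.exp_add]; field_simp
        have e2 : Real.exp (lam * u) / (Zi * Zj) *
            Real.exp (lam / 2 * (SS X N i (r ^ 2) b ω + SS X N j (r ^ 2) b ω) +
              lam * (SS X N i b n ω + SS X N j b n ω)) =
            Real.exp (lam * u + (lam / 2 * (SS X N i (r ^ 2) b ω + SS X N j (r ^ 2) b ω) +
              lam * (SS X N i b n ω + SS X N j b n ω))) / (Zi * Zj) := by
          rw [Real.exp_add (lam * u)]; ring
        rw [e1, e2]
        apply div_le_div_of_nonneg_right _ (by positivity)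
        apply Real.exp_le_exp.mpr
        rw [SS_split X N i (r ^ 2) b n hb1 hb2, SS_split X N j (r ^ 2) b n hb1 hb2]
        have h3 : lam / 2 * (SS X N i (r ^ 2) b ω + SS X N j (r ^ 2) b ω) ≤ lam / 2 * (u + u) := by
          gcongr
        nlinarith
      · have : ww P X s r K n N j ω = 0 := by unfold ww; rw [Set.indicator_of_notMem h2]
        rw [this, mul_zero]; exact hDnn
    · have : ww P X s r K n N i ω = 0 := by unfold ww; rw [Set.indicator_of_notMem h1]
      rw [this, zero_mul]; exact hDnn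
  have hint : Integrable (fun ω => ww P X s r K n N i ω * ww P X s r K n N j ω) P := by
    refine Integrable.mono' hDint
      (((ww_measurable hX.1 s r K n N i).mul (ww_measurable hX.1 s r K n N j)).aestronglyMeasurable)
      (Filter.Eventually.of_forall fun ω => ?_)
    rw [Real.norm_eq_abs, abs_of_nonneg (mul_nonneg (ww_nonneg s r K n N i hZi ω)
      (ww_nonneg s r K n N j hZj ω))]
    exact hdom ω
  refine ⟨hint, (integral_mono hint hDint hdom).trans ?_⟩
  simp only [hD]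
  rw [integral_const_mul]
  have hVi := (VV_bounds N i (r ^ 2) b hi ha1).1
  have hVj := (VV_bounds N j (r ^ 2) b hj ha1).1
  have hsi := VV_split N i (r ^ 2) b n hb1 hb2
  have hsj := VV_split N j (r ^ 2) b n hb1 hb2
  have hZZ : Real.exp (lam ^ 2 / 2 * (VV N i (r ^ 2) n + VV N j (r ^ 2) n) - 256 * A / r) ≤
      Zi * Zj := by
    calc _ = Real.exp (lam ^ 2 / 2 * VV N i (r ^ 2) n - 128 * A / r) *
          Real.exp (lam ^ 2 / 2 * VV N j (r ^ 2) n - 128 * A / r) := by
          rw [← Real.exp_add]; congr 1; ring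
      _ ≤ Zi * Zj := mul_le_mul hZi' hZj' (Real.exp_pos _).le hZi.le
  rw [div_mul_eq_mul_div, div_le_iff₀ (by positivity)]
  have hinv : 1 / ((r ^ 2 : ℕ) : ℝ) ≤ 1 := by
    rw [div_le_one (by exact_mod_cast ha1)]; exact_mod_cast ha1
  calc Real.exp (lam * u) * ∫ ω, Real.exp (lam / 2 * (SS X N i (r ^ 2) b ω + SS X N j (r ^ 2) b ω) +
        lam * (SS X N i b n ω + SS X N j b n ω)) ∂P
      ≤ Real.exp (lam * u) * Real.exp ((lam / 2) ^ 2 * (VV N i (r ^ 2) b + VV N j (r ^ 2) b) +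
        lam ^ 2 / 2 * (VV N i b n + VV N j b n + 2 * CC N i j b n) + 128 * A / r) := by
        gcongr
    _ = Real.exp (lam * u - lam ^ 2 / 4 * (VV N i (r ^ 2) b + VV N j (r ^ 2) b) +
          lam ^ 2 * CC N i j b n + 384 * A / r) *
        Real.exp (lam ^ 2 / 2 * (VV N i (r ^ 2) n + VV N j (r ^ 2) n) - 256 * A / r) := by
        rw [← Real.exp_add, ← Real.exp_add, hsi, hsj]; congr 1; ring
    _ ≤ Real.exp (HH (r ^ 2) b + 2 + 4 * max 0 (CC N i j b n) + 384 * A / r) * (Zi * Zj) := by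
        apply mul_le_mul _ hZZ (Real.exp_pos _).le (Real.exp_pos _).le
        apply Real.exp_le_exp.mpr
        have h1 : lam ^ 2 * CC N i j b n ≤ 4 * max 0 (CC N i j b n) := by
          have h2 : lam ^ 2 * CC N i j b n ≤ lam ^ 2 * max 0 (CC N i j b n) :=
            mul_le_mul_of_nonneg_left (le_max_right _ _) (sq_nonneg _)
          have h3 : lam ^ 2 ≤ 4 := by nlinarith
          have h4 : 0 ≤ max 0 (CC N i j b n) := le_max_left _ _
          nlinarith
        have h2 : lam ^ 2 / 4 * (HH (r ^ 2) b - 2 * (1 / ((r ^ 2 : ℕ) : ℝ))) ≤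
            lam ^ 2 / 4 * (VV N i (r ^ 2) b + VV N j (r ^ 2) b) := by
          apply mul_le_mul_of_nonneg_left _ (by positivity)
          linarith
        have h3 : lam ^ 2 / 4 * (2 * (1 / ((r ^ 2 : ℕ) : ℝ))) ≤ 2 := by
          have h4 : lam ^ 2 ≤ 4 := by nlinarith
          have h5 : 0 ≤ 1 / ((r ^ 2 : ℕ) : ℝ) := by positivity
          nlinarith
        have h4 : lam * u - lam ^ 2 / 4 * HH (r ^ 2) b ≤ HH (r ^ 2) b := by
          have e : lam * u - lam ^ 2 / 4 * HH (r ^ 2) b =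
              (1 - s) ^ 2 * (1 + 2 * s) * HH (r ^ 2) b := by rw [hu, hlam]; ring
          rw [e]
          have h5 : (1 - s) ^ 2 * (1 + 2 * s) ≤ 1 := by nlinarith [mul_pos hs0 hs0, mul_pos (mul_pos hs0 hs0) hs0]
          have h6 := HH_nonneg (r ^ 2) b
          nlinarith
        have h5 := mul_sub (lam ^ 2 / 4) (HH (r ^ 2) b) (2 * (1 / ((r ^ 2 : ℕ) : ℝ)))
        linarith

/-- `exp` of the harmonic sums. -/
lemma exp_HH_le (r K n m : ℕ) (hr : 1 ≤ r) (hK : 3 ≤ K) (hn : r ^ K ≤ n) (hn' : n < (r + 1) ^ K)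
    (hrK : K ≤ r) (hm2 : 2 ≤ m) (hmK : m ≤ K) :
    Real.exp (HH (r ^ 2) (bb r K n m)) ≤ Real.exp 1 * (r : ℝ) ^ (m - 2) := by
  have hr0 : (0 : ℝ) < r := by exact_mod_cast hr
  have ha1 : 1 ≤ r ^ 2 := Nat.one_le_pow _ _ hr
  obtain ⟨hb1, hb2⟩ := bb_bounds r K n m hr (by omega) hn hm2
  have hbpos : (0 : ℝ) < bb r K n m := by exact_mod_cast lt_of_lt_of_le ha1 hb1
  have h1 : HH (r ^ 2) (bb r K n m) ≤ Real.log (bb r K n m) - Real.log ((r ^ 2 : ℕ) : ℝ) :=
    sum_inv_le_log _ _ ha1 hb1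
  have h2 : Real.exp (HH (r ^ 2) (bb r K n m)) ≤ (bb r K n m : ℝ) / ((r ^ 2 : ℕ) : ℝ) := by
    refine (Real.exp_le_exp.mpr h1).trans (le_of_eq ?_)
    rw [Real.exp_sub, Real.exp_log hbpos, Real.exp_log (by positivity)]
  refine h2.trans ?_
  rw [div_le_iff₀ (by positivity)]
  have h3 : (bb r K n m : ℝ) ≤ Real.exp 1 * (r : ℝ) ^ m := by
    unfold bb
    split_ifs with h
    · push_cast
      have : (1 : ℝ) ≤ Real.exp 1 := Real.one_le_exp (by norm_num)
      have h4 : (0 : ℝ) < (r : ℝ) ^ m := by positivity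
      nlinarith
    · have hmK' : m = K := by omega
      rw [hmK']
      have h4 : (n : ℝ) ≤ ((r : ℝ) + 1) ^ K := by exact_mod_cast hn'.le
      refine h4.trans ?_
      have h5 : (r : ℝ) + 1 = r * (1 + 1 / r) := by field_simp
      rw [h5, mul_pow, mul_comm]
      have h6 : (1 + 1 / (r : ℝ)) ^ K ≤ Real.exp 1 := by
        have h7 : 1 + 1 / (r : ℝ) ≤ Real.exp (1 / r) := by
          have := Real.add_one_le_exp (1 / (r : ℝ)); linarith
        calc (1 + 1 / (r : ℝ)) ^ K ≤ (Real.exp (1 / r)) ^ K := by gcongr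
          _ = Real.exp (K * (1 / r)) := by rw [← Real.exp_nat_mul]
          _ ≤ Real.exp 1 := by
            apply Real.exp_le_exp.mpr
            rw [mul_one_div, div_le_one hr0]
            exact_mod_cast hrK
      gcongr
  refine h3.trans (le_of_eq ?_)
  push_cast
  have : (r : ℝ) ^ m = (r : ℝ) ^ (m - 2) * (r : ℝ) ^ 2 := by
    rw [← pow_add]; congr 1; omega
  rw [this]; ring

/-- pair bound for separated points -/
lemma pair_far {X : ℕ → Ω → ℝ} {t₀ A : ℝ} (hA : 0 < A) (hX : ExpCtl P X t₀ A) (r : ℕ)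
    (hr : 1 ≤ r) (hrt : 4 / (r : ℝ) ≤ t₀) (K n : ℕ) (hK : 3 ≤ K) (hn : r ^ K ≤ n) (i j : ℕ)
    (hi : i < r ^ K) (hj : j < r ^ K) (s : ℝ) (hs0 : 0 < s) (hs1 : s < 1)
    (hij : (r : ℝ) ^ (K - 1) ≤ |(i : ℝ) - j|) :
    ∫ ω, ww P X s r K n (r ^ K) i ω * ww P X s r K n (r ^ K) j ω ∂P ≤
      Real.exp ((12 + 384 * A) / r) := by
  have hr0 : (0 : ℝ) < r := by exact_mod_cast hr
  have ha1 : 1 ≤ r ^ 2 := Nat.one_le_pow _ _ hr
  have hn2 : r ^ 2 ≤ n := (Nat.pow_le_pow_right hr (by omega)).trans hn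
  have hne : i ≠ j := by
    rintro rfl
    rw [sub_self, abs_zero] at hij
    have : (0 : ℝ) < (r : ℝ) ^ (K - 1) := by positivity
    linarith
  set N := r ^ K with hN
  set lam : ℝ := 2 * (1 - s) with hlam
  have hlam0 : 0 < lam := by rw [hlam]; linarith
  have hlam2 : lam ≤ 2 := by rw [hlam]; linarith
  have hZi : 0 < ZZ P X s r n N i := ZZ_pos hA hX r hr hrt n hn2 N i s hs0 hs1
  have hZj : 0 < ZZ P X s r n N j := ZZ_pos hA hX r hr hrt n hn2 N j s hs0 hs1
  have hZi' := (ZZ_bounds hA hX r hr hrt n hn2 N i s hs0 hs1).2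
  have hZj' := (ZZ_bounds hA hX r hr hrt n hn2 N j s hs0 hs1).2
  rw [← hlam] at hZi' hZj'
  have hint := (pair_gen hA hX r hr hrt K n hK hn N i j hi hj s hs0 hs1 2 le_rfl (by omega)).1
  set Zi := ZZ P X s r n N i with hZidef
  set Zj := ZZ P X s r n N j with hZjdef
  obtain ⟨hI, hU⟩ := two_point hA hX r hr hrt (r ^ 2) n le_rfl hn2 N i j 0 lam
    (by simp) (by rw [abs_of_pos hlam0]; linarith)
  simp only [zero_mul, zero_add] at hI hU
  set D : Ω → ℝ := fun ω => 1 / (Zi * Zj) *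
    Real.exp (lam * (SS X N i (r ^ 2) n ω + SS X N j (r ^ 2) n ω)) with hD
  have hDint : Integrable D P := hI.const_mul _
  have hdom : ∀ ω, ww P X s r K n N i ω * ww P X s r K n N j ω ≤ D ω := by
    intro ω
    have hDnn : 0 ≤ D ω := by
      simp only [hD]; positivity
    by_cases h1 : ω ∈ II X s r K n N i
    · by_cases h2 : ω ∈ II X s r K n N j
      · unfold ww
        rw [Set.indicator_of_mem h1, Set.indicator_of_mem h2, ← hlam, ← hZidef, ← hZjdef]
        simp only [hD]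
        apply le_of_eq
        rw [mul_add, Real.exp_add]; field_simp
      · have : ww P X s r K n N j ω = 0 := by unfold ww; rw [Set.indicator_of_notMem h2]
        rw [this, mul_zero]; exact hDnn
    · have : ww P X s r K n N i ω = 0 := by unfold ww; rw [Set.indicator_of_notMem h1]
      rw [this, zero_mul]; exact hDnn
  refine (integral_mono hint hDint hdom).trans ?_
  simp only [hD]
  rw [integral_const_mul]
  have hZZ : Real.exp (lam ^ 2 / 2 * (VV N i (r ^ 2) n + VV N j (r ^ 2) n) - 256 * A / r) ≤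
      Zi * Zj := by
    calc _ = Real.exp (lam ^ 2 / 2 * VV N i (r ^ 2) n - 128 * A / r) *
          Real.exp (lam ^ 2 / 2 * VV N j (r ^ 2) n - 128 * A / r) := by
          rw [← Real.exp_add]; congr 1; ring
      _ ≤ Zi * Zj := mul_le_mul hZi' hZj' (Real.exp_pos _).le hZi.le
  have hC : CC N i j (r ^ 2) n ≤ 3 / r := by
    have h1 := C_bound N i j (r ^ 2) n hi hj hne ha1
    have hpi := Real.pi_lt_d2
    have hpi0 := Real.pi_pos
    unfold CC
    refine h1.trans ?_
    have hD0 : 0 < |(i : ℝ) - j| := lt_of_lt_of_le (by positivity) hij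
    have h2 : Real.pi * (N : ℝ) / (2 * ((r ^ 2 : ℕ) : ℝ) * |(i : ℝ) - j|) ≤ Real.pi / (2 * r) := by
      rw [div_le_div_iff₀ (by positivity) (by positivity), hN]
      push_cast
      have h3 : (r : ℝ) ^ K = r * (r : ℝ) ^ (K - 1) := by
        rw [← pow_succ']; congr 1; omega
      rw [h3]
      have h4 : (r : ℝ) * (r : ℝ) ^ (K - 1) * (2 * r) ≤ 2 * (r : ℝ) ^ 2 * |(i : ℝ) - j| := by
        have : 2 * (r : ℝ) ^ 2 * (r : ℝ) ^ (K - 1) ≤ 2 * (r : ℝ) ^ 2 * |(i : ℝ) - j| := by gcongr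
        linarith
      nlinarith
    have h3 : 1 / ((r ^ 2 : ℕ) : ℝ) ≤ 1 / r := by
      apply one_div_le_one_div_of_le hr0
      push_cast
      have : (1 : ℝ) ≤ r := by exact_mod_cast hr
      nlinarith
    calc Real.pi * (N : ℝ) / (2 * ((r ^ 2 : ℕ) : ℝ) * |(i : ℝ) - j|) + 1 / ((r ^ 2 : ℕ) : ℝ)
        ≤ Real.pi / (2 * r) + 1 / r := add_le_add h2 h3
      _ = (Real.pi / 2 + 1) / r := by field_simp
      _ ≤ 3 / r := by gcongr; linarith
  rw [one_div, inv_mul_le_iff₀ (by positivity)]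
  calc ∫ ω, Real.exp (lam * (SS X N i (r ^ 2) n ω + SS X N j (r ^ 2) n ω)) ∂P
      ≤ Real.exp (0 ^ 2 * (VV N i (r ^ 2) (r ^ 2) + VV N j (r ^ 2) (r ^ 2)) +
        lam ^ 2 / 2 * (VV N i (r ^ 2) n + VV N j (r ^ 2) n + 2 * CC N i j (r ^ 2) n) +
        128 * A / r) := hU
    _ = Real.exp (lam ^ 2 / 2 * (VV N i (r ^ 2) n + VV N j (r ^ 2) n) - 256 * A / r) *
        Real.exp (lam ^ 2 * CC N i j (r ^ 2) n + 384 * A / r) := by
        rw [← Real.exp_add]; congr 1; ring
    _ ≤ (Zi * Zj) * Real.exp ((12 + 384 * A) / r) := by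
        apply mul_le_mul hZZ _ (Real.exp_pos _).le (by positivity)
        apply Real.exp_le_exp.mpr
        have h1 : lam ^ 2 * CC N i j (r ^ 2) n ≤ 12 / r := by
          have h2 : lam ^ 2 * CC N i j (r ^ 2) n ≤ lam ^ 2 * (3 / r) :=
            mul_le_mul_of_nonneg_left hC (sq_nonneg _)
          have h3 : lam ^ 2 ≤ 4 := by nlinarith
          have h4 : lam ^ 2 * (3 / (r : ℝ)) ≤ 4 * (3 / r) := by gcongr
          calc _ ≤ 4 * (3 / (r : ℝ)) := h2.trans h4
            _ = 12 / r := by ring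
        calc lam ^ 2 * CC N i j (r ^ 2) n + 384 * A / r ≤ 12 / r + 384 * A / r := by gcongr
          _ = (12 + 384 * A) / r := by ring

/-- pair bound in class `m` -/
lemma pair_near {X : ℕ → Ω → ℝ} {t₀ A : ℝ} (hA : 0 < A) (hX : ExpCtl P X t₀ A) (r : ℕ)
    (hr : 1 ≤ r) (hrt : 4 / (r : ℝ) ≤ t₀) (K n : ℕ) (hK : 3 ≤ K) (hn : r ^ K ≤ n)
    (hn' : n < (r + 1) ^ K) (hrK : K ≤ r) (i j : ℕ)
    (hi : i < r ^ K) (hj : j < r ^ K) (s : ℝ) (hs0 : 0 < s) (hs1 : s < 1) (m : ℕ) (hm2 : 2 ≤ m)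
    (hmK : m ≤ K) (hij : m = K ∨ (r : ℝ) ^ (K - m) ≤ |(i : ℝ) - j|) :
    ∫ ω, ww P X s r K n (r ^ K) i ω * ww P X s r K n (r ^ K) j ω ∂P ≤
      Real.exp (15 + 384 * A / r) * (r : ℝ) ^ (m - 2) := by
  have hr0 : (0 : ℝ) < r := by exact_mod_cast hr
  have h1 := (pair_gen hA hX r hr hrt K n hK hn (r ^ K) i j hi hj s hs0 hs1 m hm2 hmK).2
  refine h1.trans ?_
  have h2 := exp_HH_le r K n m hr hK hn hn' hrK hm2 hmK
  have h3 : max 0 (CC (r ^ K) i j (bb r K n m) n) ≤ 3 := by
    apply max_le (by norm_num)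
    rcases hij with h | h
    · have : bb r K n m = n := by unfold bb; rw [if_neg (by omega)]
      rw [this]
      unfold CC
      simp
    · rcases Nat.lt_or_ge m K with hlt | hge
      · have hb : bb r K n m = r ^ m := by unfold bb; rw [if_pos hlt]
        rw [hb]
        have hD0 : 0 < |(i : ℝ) - j| := lt_of_lt_of_le (by positivity) h
        have hne : i ≠ j := by
          rintro rfl
          simp at hD0
        have hm1 : 1 ≤ r ^ m := Nat.one_le_pow _ _ hr
        have h4 := C_bound (r ^ K) i j (r ^ m) n hi hj hne hm1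
        unfold CC
        refine h4.trans ?_
        have hpi := Real.pi_lt_d2
        have hpi0 := Real.pi_pos
        have h5 : Real.pi * ((r ^ K : ℕ) : ℝ) / (2 * ((r ^ m : ℕ) : ℝ) * |(i : ℝ) - j|) ≤
            Real.pi / 2 := by
          rw [div_le_div_iff₀ (by positivity) two_pos]
          push_cast
          have h6 : (r : ℝ) ^ K = (r : ℝ) ^ m * (r : ℝ) ^ (K - m) := by
            rw [← pow_add]; congr 1; omega
          rw [h6]
          have h7 : (r : ℝ) ^ m * (r : ℝ) ^ (K - m) ≤ (r : ℝ) ^ m * |(i : ℝ) - j| := by gcongr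
          nlinarith
        have h6 : 1 / ((r ^ m : ℕ) : ℝ) ≤ 1 := by
          rw [div_le_one (by exact_mod_cast hm1)]; exact_mod_cast hm1
        linarith
      · have : bb r K n m = n := by unfold bb; rw [if_neg (by omega)]
        rw [this]
        unfold CC
        simp
  calc Real.exp (HH (r ^ 2) (bb r K n m) + 2 + 4 * max 0 (CC (r ^ K) i j (bb r K n m) n) +
        384 * A / r)
      ≤ Real.exp ((14 + 384 * A / r) + HH (r ^ 2) (bb r K n m)) := by
        apply Real.exp_le_exp.mpr; linarith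
    _ = Real.exp (14 + 384 * A / r) * Real.exp (HH (r ^ 2) (bb r K n m)) := Real.exp_add _ _
    _ ≤ Real.exp (14 + 384 * A / r) * (Real.exp 1 * (r : ℝ) ^ (m - 2)) := by gcongr
    _ = Real.exp (15 + 384 * A / r) * (r : ℝ) ^ (m - 2) := by
        rw [← mul_assoc, ← Real.exp_add]; congr 2; ring

/-- counting neighbours -/
lemma count_near (N i R : ℕ) (c : ℝ) (hc : 0 ≤ c) :
    ∑ j ∈ range N, (if |(i : ℝ) - j| < R then c else 0) ≤ 2 * R * c := by
  rw [← Finset.sum_filter, Finset.sum_const, nsmul_eq_mul]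
  apply mul_le_mul_of_nonneg_right _ hc
  have hsub : (range N).filter (fun j : ℕ => |(i : ℝ) - j| < R) ⊆ Ico (i + 1 - R) (i + R) := by
    intro j hj
    rw [Finset.mem_filter] at hj
    obtain ⟨-, h⟩ := hj
    rw [abs_lt] at h
    rw [Finset.mem_Ico]
    have h1 : (i : ℝ) < j + R := by linarith [h.2]
    have h2 : (j : ℝ) < i + R := by linarith [h.1]
    have h1' : i < j + R := by exact_mod_cast h1
    have h2' : j < i + R := by exact_mod_cast h2
    omega
  have hcard := Finset.card_le_card hsub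
  rw [Nat.card_Ico] at hcard
  have : ((range N).filter (fun j : ℕ => |(i : ℝ) - j| < R)).card ≤ 2 * R := by omega
  exact_mod_cast this

/-- Sum over all pairs. -/
lemma pair_sum {X : ℕ → Ω → ℝ} {t₀ A : ℝ} (hA : 0 < A) (hX : ExpCtl P X t₀ A) (r : ℕ)
    (hr : 1 ≤ r) (hrt : 4 / (r : ℝ) ≤ t₀) (K n : ℕ) (hK : 3 ≤ K) (hn : r ^ K ≤ n)
    (hn' : n < (r + 1) ^ K) (hrK : K ≤ r) (s : ℝ) (hs0 : 0 < s) (hs1 : s < 1) :
    ∑ i ∈ range (r ^ K), ∑ j ∈ range (r ^ K),
      ∫ ω, ww P X s r K n (r ^ K) i ω * ww P X s r K n (r ^ K) j ω ∂P ≤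
      (Real.exp ((12 + 384 * A) / r) + K * (2 * Real.exp (15 + 384 * A / r) / r)) *
        ((r ^ K : ℕ) : ℝ) ^ 2 := by
  have hr0 : (0 : ℝ) < r := by exact_mod_cast hr
  set N := r ^ K with hN
  have hN0 : (0 : ℝ) < N := by rw [hN]; positivity
  set B := Real.exp (15 + 384 * A / r) with hB
  set F := Real.exp ((12 + 384 * A) / r) with hF
  have hpt : ∀ i ∈ range N, ∀ j ∈ range N,
      ∫ ω, ww P X s r K n N i ω * ww P X s r K n N j ω ∂P ≤
      F + ∑ m ∈ Icc 2 K, (if |(i : ℝ) - j| < (r ^ (K - m + 1) : ℕ) then B * (r : ℝ) ^ (m - 2) else 0) := by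
    intro i hi j hj
    have hi' := Finset.mem_range.mp hi
    have hj' := Finset.mem_range.mp hj
    have hnn : ∀ m ∈ Icc 2 K, (0 : ℝ) ≤
        (if |(i : ℝ) - j| < (r ^ (K - m + 1) : ℕ) then B * (r : ℝ) ^ (m - 2) else 0) := by
      intro m _
      split_ifs <;> positivity
    by_cases hfar : (r : ℝ) ^ (K - 1) ≤ |(i : ℝ) - j|
    · have h1 := pair_far hA hX r hr hrt K n hK hn i j hi' hj' s hs0 hs1 hfar
      have h2 := Finset.sum_nonneg hnn
      linarith
    · rw [not_le] at hfar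
      -- the largest class
      set Q : ℕ → Prop := fun m => 2 ≤ m ∧ m ≤ K ∧ |(i : ℝ) - j| < ((r ^ (K - m + 1) : ℕ) : ℝ) with hQ
      have hQ2 : Q 2 := by
        refine ⟨le_rfl, by omega, ?_⟩
        have e : K - 2 + 1 = K - 1 := by omega
        rw [e]; push_cast; exact hfar
      obtain ⟨m, hm, hmax⟩ : ∃ m, Q m ∧ ¬ Q (m + 1) := by
        by_contra hcon
        push Not at hcon
        have hall : ∀ m, 2 ≤ m → Q m := by
          intro m hm
          induction m, hm using Nat.le_induction with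
          | base => exact hQ2
          | succ m hm ih => exact hcon m ih
        have := (hall (K + 2) (by omega)).2.1
        omega
      obtain ⟨hm2, hmK, hlt⟩ := hm
      have hcls : m = K ∨ (r : ℝ) ^ (K - m) ≤ |(i : ℝ) - j| := by
        rcases Nat.lt_or_ge m K with h | h
        · right
          by_contra hcon
          rw [not_le] at hcon
          apply hmax
          refine ⟨by omega, by omega, ?_⟩
          have e : K - (m + 1) + 1 = K - m := by omega
          rw [e]; push_cast; exact hcon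
        · left; omega
      have h1 := pair_near hA hX r hr hrt K n hK hn hn' hrK i j hi' hj' s hs0 hs1 m hm2 hmK hcls
      have h2 : B * (r : ℝ) ^ (m - 2) ≤ ∑ m ∈ Icc 2 K,
          (if |(i : ℝ) - j| < (r ^ (K - m + 1) : ℕ) then B * (r : ℝ) ^ (m - 2) else 0) := by
        have := Finset.single_le_sum hnn (Finset.mem_Icc.mpr ⟨hm2, hmK⟩)
        rw [if_pos hlt] at this
        exact this
      have hF0 : 0 < F := Real.exp_pos _
      linarith
  calc ∑ i ∈ range N, ∑ j ∈ range N, ∫ ω, ww P X s r K n N i ω * ww P X s r K n N j ω ∂P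
      ≤ ∑ i ∈ range N, ∑ j ∈ range N, (F + ∑ m ∈ Icc 2 K,
          (if |(i : ℝ) - j| < (r ^ (K - m + 1) : ℕ) then B * (r : ℝ) ^ (m - 2) else 0)) :=
        Finset.sum_le_sum fun i hi => Finset.sum_le_sum fun j hj => hpt i hi j hj
    _ = F * (N : ℝ) ^ 2 + ∑ m ∈ Icc 2 K, ∑ i ∈ range N, ∑ j ∈ range N,
          (if |(i : ℝ) - j| < (r ^ (K - m + 1) : ℕ) then B * (r : ℝ) ^ (m - 2) else 0) := by
        simp only [Finset.sum_add_distrib, Finset.sum_const, Finset.card_range, nsmul_eq_mul]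
        congr 1
        · ring
        · rw [Finset.sum_comm (s := Icc 2 K) (t := range N)]
          refine Finset.sum_congr rfl fun i _ => ?_
          rw [Finset.sum_comm]
    _ ≤ F * (N : ℝ) ^ 2 + ∑ m ∈ Icc 2 K, (2 * B / r) * (N : ℝ) ^ 2 := by
        gcongr with m hm
        rw [Finset.mem_Icc] at hm
        calc ∑ i ∈ range N, ∑ j ∈ range N,
              (if |(i : ℝ) - j| < (r ^ (K - m + 1) : ℕ) then B * (r : ℝ) ^ (m - 2) else 0)
            ≤ ∑ i ∈ range N, 2 * ((r ^ (K - m + 1) : ℕ) : ℝ) * (B * (r : ℝ) ^ (m - 2)) :=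
              Finset.sum_le_sum fun i _ => count_near N i _ _ (by positivity)
          _ = (2 * B / r) * (N : ℝ) ^ 2 := by
              rw [Finset.sum_const, Finset.card_range, nsmul_eq_mul, hN]
              push_cast
              have h3 : (r : ℝ) ^ (K - m + 1) * (r : ℝ) ^ (m - 2) * r = (r : ℝ) ^ K := by
                rw [← pow_add, ← pow_succ]; congr 1; omega
              field_simp
              rw [← h3]; ring
    _ ≤ F * (N : ℝ) ^ 2 + K * ((2 * B / r) * (N : ℝ) ^ 2) := by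
        rw [Finset.sum_const, Nat.card_Icc, nsmul_eq_mul]
        have hB0 : 0 ≤ (2 * B / r) * (N : ℝ) ^ 2 := by positivity
        have : ((K + 1 - 2 : ℕ) : ℝ) ≤ K := by exact_mod_cast (by omega : K + 1 - 2 ≤ K)
        gcongr
    _ = _ := by ring

end Pool.Agent.Helper722.LogPoly
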