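import Mathlib

set_option autoImplicit false

open Finset

namespace Pool.Agent.Helper722.LogPoly

/-- Growth of polynomials outside the unit disc. -/
lemma growth (n : ℕ) (a : ℕ → ℂ) (M : ℝ)
    (hM : ∀ z : ℂ, ‖z‖ = 1 → ‖∑ k ∈ range (n + 1), a k * z ^ k‖ ≤ M)
    (R : ℝ) (hR : 1 ≤ R) (z : ℂ) (hz : ‖z‖ ≤ R) :
    ‖∑ k ∈ range (n + 1), a k * z ^ k‖ ≤ R ^ n * M := by
  have hM0 : 0 ≤ M := le_trans (norm_nonneg _) (hM 1 (by simp))
  have hmax : ∀ b : ℕ → ℂ, (∀ z : ℂ, ‖z‖ = 1 → ‖∑ k ∈ range (n + 1), b k * z ^ k‖ ≤ M) →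
      ∀ z : ℂ, ‖z‖ ≤ 1 → ‖∑ k ∈ range (n + 1), b k * z ^ k‖ ≤ M := by
    intro b hb w hw
    have hd : Differentiable ℂ (fun z : ℂ => ∑ k ∈ range (n + 1), b k * z ^ k) := by
      fun_prop
    refine Complex.norm_le_of_forall_mem_frontier_norm_le (U := Metric.ball 0 1)
      Metric.isBounded_ball hd.diffContOnCl ?_ ?_
    · intro z hz
      rw [frontier_ball (0 : ℂ) one_ne_zero] at hz
      exact hb z (by simpa using hz)
    · rw [closure_ball (0 : ℂ) one_ne_zero]
      simpa using hw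
  have hRn : 1 ≤ R ^ n := one_le_pow₀ hR
  rcases le_total ‖z‖ 1 with h1 | h1
  · have := hmax a hM z h1
    nlinarith
  · -- reversed polynomial
    have hz0 : z ≠ 0 := by
      intro h; rw [h, norm_zero] at h1; linarith
    have hrev : ∀ w : ℂ, w ≠ 0 → ∑ k ∈ range (n + 1), a (n - k) * w ^ k =
        w ^ n * ∑ k ∈ range (n + 1), a k * (w⁻¹) ^ k := by
      intro w hw
      rw [← Finset.sum_range_reflect (fun k => a k * (w⁻¹) ^ k), Finset.mul_sum]
      refine Finset.sum_congr rfl fun k hk => ?_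
      have hk' : k ≤ n := Nat.lt_succ_iff.mp (Finset.mem_range.mp hk)
      have e : n + 1 - 1 - k = n - k := by omega
      rw [e]
      have : w ^ n = w ^ k * w ^ (n - k) := by rw [← pow_add]; congr 1; omega
      rw [this, inv_pow]
      field_simp
    have hb : ∀ w : ℂ, ‖w‖ = 1 → ‖∑ k ∈ range (n + 1), a (n - k) * w ^ k‖ ≤ M := by
      intro w hw
      have hw0 : w ≠ 0 := by intro h; rw [h, norm_zero] at hw; linarith
      rw [hrev w hw0, norm_mul, norm_pow, hw, one_pow, one_mul]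
      exact hM _ (by rw [norm_inv, hw, inv_one])
    have h2 := hmax (fun k => a (n - k)) hb z⁻¹ (by
      rw [norm_inv]; exact inv_le_one_of_one_le₀ h1)
    rw [hrev z⁻¹ (inv_ne_zero hz0), inv_inv, norm_mul, norm_pow, norm_inv] at h2
    have hzpos : 0 < ‖z‖ := by linarith
    have h3 : ‖∑ k ∈ range (n + 1), a k * z ^ k‖ ≤ ‖z‖ ^ n * M := by
      rw [inv_pow, inv_mul_le_iff₀ (by positivity)] at h2
      exact h2
    refine h3.trans ?_
    gcongr

/-- A crude Bernstein inequality with constant `e`. -/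
lemma deriv_bound (n : ℕ) (hn : 1 ≤ n) (a : ℕ → ℂ) (M : ℝ)
    (hM : ∀ z : ℂ, ‖z‖ = 1 → ‖∑ k ∈ range (n + 1), a k * z ^ k‖ ≤ M)
    (z : ℂ) (hz : ‖z‖ = 1) :
    ‖deriv (fun z : ℂ => ∑ k ∈ range (n + 1), a k * z ^ k) z‖ ≤ Real.exp 1 * n * M := by
  have hM0 : 0 ≤ M := le_trans (norm_nonneg _) (hM 1 (by simp))
  have hn0 : (0 : ℝ) < n := by exact_mod_cast hn
  have hd : Differentiable ℂ (fun z : ℂ => ∑ k ∈ range (n + 1), a k * z ^ k) := by
    fun_prop
  have h := Complex.norm_deriv_le_of_forall_mem_sphere_norm_le (c := z) (R := 1 / n)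
    (C := Real.exp 1 * M) (by positivity) hd.diffContOnCl (by
      intro w hw
      have hw1 : ‖w‖ ≤ 1 + 1 / n := by
        have : ‖w - z‖ = 1 / n := by simpa [dist_eq_norm] using hw
        calc ‖w‖ = ‖z + (w - z)‖ := by ring_nf
          _ ≤ ‖z‖ + ‖w - z‖ := norm_add_le _ _
          _ = 1 + 1 / n := by rw [hz, this]
      refine (growth n a M hM (1 + 1 / n) (by
        have : 0 ≤ 1 / (n : ℝ) := by positivity
        linarith) w hw1).trans ?_
      have h1 : (1 + 1 / (n : ℝ)) ^ n ≤ Real.exp 1 := by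
        have h2 : 1 + 1 / (n : ℝ) ≤ Real.exp (1 / n) := by
          have := Real.add_one_le_exp (1 / (n : ℝ)); linarith
        calc (1 + 1 / (n : ℝ)) ^ n ≤ (Real.exp (1 / n)) ^ n := by gcongr
          _ = Real.exp 1 := by
            rw [← Real.exp_nat_mul]; congr 1; field_simp
      gcongr)
  refine h.trans (le_of_eq ?_)
  field_simp

/-- Lipschitz bound along the circle. -/
lemma circle_lipschitz (n : ℕ) (hn : 1 ≤ n) (a : ℕ → ℂ) (M : ℝ)
    (hM : ∀ z : ℂ, ‖z‖ = 1 → ‖∑ k ∈ range (n + 1), a k * z ^ k‖ ≤ M) (α β : ℝ) :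
    ‖∑ k ∈ range (n + 1), a k * (Complex.exp (α * Complex.I)) ^ k -
      ∑ k ∈ range (n + 1), a k * (Complex.exp (β * Complex.I)) ^ k‖ ≤
      Real.exp 1 * n * M * |α - β| := by
  set f : ℂ → ℂ := fun z => ∑ k ∈ range (n + 1), a k * z ^ k with hf
  have hd : Differentiable ℂ f := by
    rw [hf]; fun_prop
  set F : ℝ → ℂ := fun t => f (Complex.exp (t * Complex.I)) with hF
  have hder : ∀ t : ℝ, HasDerivAt F
      (deriv f (Complex.exp (t * Complex.I)) * (Complex.exp (t * Complex.I) * Complex.I)) t := by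
    intro t
    have h1 : HasDerivAt (fun s : ℝ => Complex.exp (s * Complex.I))
        (Complex.exp (t * Complex.I) * Complex.I) t := by
      have h2 : HasDerivAt (fun s : ℝ => (s : ℂ) * Complex.I) Complex.I t := by
        simpa using (Complex.ofRealCLM.hasDerivAt (x := t)).mul_const Complex.I
      exact h2.cexp
    exact HasDerivAt.comp t (hd (Complex.exp (t * Complex.I))).hasDerivAt h1
  have hbound : ∀ t ∈ (Set.univ : Set ℝ), ‖deriv F t‖ ≤ Real.exp 1 * n * M := by
    intro t _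
    rw [(hder t).deriv, norm_mul, norm_mul, Complex.norm_I, Complex.norm_exp_ofReal_mul_I]
    simp only [mul_one]
    exact deriv_bound n hn a M hM _ (Complex.norm_exp_ofReal_mul_I t)
  have := Convex.norm_image_sub_le_of_norm_deriv_le (f := F) (s := Set.univ)
    (fun t _ => (hder t).differentiableAt) hbound convex_univ (Set.mem_univ β) (Set.mem_univ α)
  simpa [hF, hf, Real.norm_eq_abs] using this

/-- Nearest grid point. -/
lemma exists_grid (α : ℝ) (N : ℕ) (hN : 1 ≤ N) :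
    ∃ j < N, ∃ m : ℤ, |α - 2 * Real.pi * j / N - 2 * Real.pi * m| ≤ Real.pi / N := by
  have hN0 : (0 : ℝ) < N := by exact_mod_cast hN
  set y : ℝ := α * N / (2 * Real.pi) with hy
  set r : ℤ := round y with hr
  have h1 : |y - r| ≤ 1 / 2 := abs_sub_round y
  have hNz : (0 : ℤ) < N := by exact_mod_cast hN
  refine ⟨(r % N).toNat, ?_, r / N, ?_⟩
  · have h2 := Int.emod_lt_of_pos r hNz
    have h3 := Int.emod_nonneg r hNz.ne'
    omega
  · have h3 := Int.emod_nonneg r hNz.ne'
    have e1 : (((r % N).toNat : ℕ) : ℝ) = ((r % N : ℤ) : ℝ) := by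
      have : (((r % N).toNat : ℕ) : ℤ) = r % N := Int.toNat_of_nonneg h3
      exact_mod_cast congrArg (fun x : ℤ => (x : ℝ)) this
    have e2 : ((r % N : ℤ) : ℝ) + N * ((r / N : ℤ) : ℝ) = r := by
      exact_mod_cast Int.emod_add_mul_ediv r N
    have e3 : α - 2 * Real.pi * ((r % N).toNat : ℕ) / N - 2 * Real.pi * ((r / N : ℤ) : ℝ) =
        (2 * Real.pi / N) * (y - r) := by
      rw [e1, ← e2, hy]
      field_simp
      ring
    rw [e3, abs_mul, abs_of_pos (by positivity)]
    calc 2 * Real.pi / N * |y - r| ≤ 2 * Real.pi / N * (1 / 2) := by gcongr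
      _ = Real.pi / N := by ring

/-- Discretisation of the maximum modulus: if all values on the grid of `L n` points are at most
`B` then the maximum is at most `B/(1-9/L)`. -/
lemma grid_bound (n : ℕ) (hn : 1 ≤ n) (a : ℕ → ℂ) (L : ℕ) (hL : 9 < L) (B : ℝ)
    (hB : ∀ j < L * n, ‖∑ k ∈ range (n + 1),
      a k * (Complex.exp ((2 * Real.pi * j / (L * n : ℕ) : ℝ) * Complex.I)) ^ k‖ ≤ B)
    (z : ℂ) (hz : ‖z‖ = 1) :
    ‖∑ k ∈ range (n + 1), a k * z ^ k‖ * (1 - 9 / L) ≤ B := by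
  have hL0 : (0 : ℝ) < L := by exact_mod_cast (by omega : 0 < L)
  have hn0 : (0 : ℝ) < n := by exact_mod_cast hn
  -- maximum point
  have hcomp : IsCompact (Metric.sphere (0 : ℂ) 1) := isCompact_sphere _ _
  have hne : (Metric.sphere (0 : ℂ) 1).Nonempty := ⟨1, by simp⟩
  have hcont : Continuous (fun z : ℂ => ‖∑ k ∈ range (n + 1), a k * z ^ k‖) := by fun_prop
  obtain ⟨z₀, hz₀, hmax⟩ := hcomp.exists_isMaxOn hne hcont.continuousOn
  have hz₀' : ‖z₀‖ = 1 := by simpa using hz₀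
  set M := ‖∑ k ∈ range (n + 1), a k * z₀ ^ k‖ with hMdef
  have hM : ∀ z : ℂ, ‖z‖ = 1 → ‖∑ k ∈ range (n + 1), a k * z ^ k‖ ≤ M := by
    intro z hz
    exact hmax (by simpa using hz)
  have hM0 : 0 ≤ M := norm_nonneg _
  obtain ⟨j, hj, m, hjm⟩ := exists_grid (Complex.arg z₀) (L * n) (by nlinarith)
  have hz₀e : z₀ = Complex.exp (Complex.arg z₀ * Complex.I) := by
    have := Complex.norm_mul_exp_arg_mul_I z₀
    rw [hz₀'] at this
    simpa using this.symm
  have hper : Complex.exp ((2 * Real.pi * j / (L * n : ℕ) : ℝ) * Complex.I) =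
      Complex.exp ((2 * Real.pi * j / (L * n : ℕ) + 2 * Real.pi * m : ℝ) * Complex.I) := by
    rw [Complex.exp_eq_exp_iff_exists_int]
    refine ⟨-m, ?_⟩
    push_cast
    ring
  have hlip := circle_lipschitz n hn a M hM (Complex.arg z₀)
    (2 * Real.pi * j / (L * n : ℕ) + 2 * Real.pi * m)
  rw [← hper, ← hz₀e] at hlip
  have h1 : M ≤ B + Real.exp 1 * n * M * (Real.pi / (L * n : ℕ)) := by
    calc M ≤ ‖∑ k ∈ range (n + 1),
          a k * (Complex.exp ((2 * Real.pi * j / (L * n : ℕ) : ℝ) * Complex.I)) ^ k‖ +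
          ‖∑ k ∈ range (n + 1), a k * z₀ ^ k - ∑ k ∈ range (n + 1),
          a k * (Complex.exp ((2 * Real.pi * j / (L * n : ℕ) : ℝ) * Complex.I)) ^ k‖ := by
          rw [hMdef]
          have := norm_add_le (∑ k ∈ range (n + 1),
            a k * (Complex.exp ((2 * Real.pi * j / (L * n : ℕ) : ℝ) * Complex.I)) ^ k)
            (∑ k ∈ range (n + 1), a k * z₀ ^ k - ∑ k ∈ range (n + 1),
            a k * (Complex.exp ((2 * Real.pi * j / (L * n : ℕ) : ℝ) * Complex.I)) ^ k)
          simpa using this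
      _ ≤ B + Real.exp 1 * n * M * (Real.pi / (L * n : ℕ)) := by
          refine add_le_add (hB j hj) (hlip.trans ?_)
          have : |Complex.arg z₀ - (2 * Real.pi * j / (L * n : ℕ) + 2 * Real.pi * m)| ≤
              Real.pi / (L * n : ℕ) := by
            rw [← sub_sub]; exact hjm
          gcongr
  have h2 : Real.exp 1 * n * M * (Real.pi / (L * n : ℕ)) ≤ M * (9 / L) := by
    have e : Real.exp 1 * n * M * (Real.pi / (L * n : ℕ)) = M * ((Real.exp 1 * Real.pi) / L) := by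
      push_cast
      field_simp
    rw [e]
    have h9 : Real.exp 1 * Real.pi ≤ 9 := by
      have h3 := Real.exp_one_lt_d9
      have h4 := Real.pi_lt_d2
      have h5 := Real.pi_pos
      nlinarith
    gcongr
  have h3 : 0 ≤ 1 - 9 / (L : ℝ) := by
    rw [sub_nonneg, div_le_one hL0]
    exact_mod_cast hL.le
  have h4 : ‖∑ k ∈ range (n + 1), a k * z ^ k‖ * (1 - 9 / L) ≤ M * (1 - 9 / L) :=
    mul_le_mul_of_nonneg_right (hM z hz) h3
  linarith

/-- Discretisation of directions. -/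
lemma dir_bound (w : ℂ) (J : ℕ) (hJ : 1 ≤ J) (B : ℝ)
    (hB : ∀ i < J, (Complex.exp (-((2 * Real.pi * i / J : ℝ) * Complex.I)) * w).re ≤ B) :
    ‖w‖ * (1 - Real.pi / J) ≤ B := by
  obtain ⟨i, hi, m, him⟩ := exists_grid (Complex.arg w) J hJ
  set φ : ℝ := 2 * Real.pi * i / J + 2 * Real.pi * m with hφ
  have hper : Complex.exp (-((2 * Real.pi * i / J : ℝ) * Complex.I)) =
      Complex.exp (-((φ : ℝ) * Complex.I)) := by
    rw [Complex.exp_eq_exp_iff_exists_int]
    refine ⟨m, ?_⟩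
    rw [hφ]
    push_cast
    ring
  have h1 := hB i hi
  rw [hper] at h1
  have hw : w = ‖w‖ * Complex.exp (Complex.arg w * Complex.I) :=
    (Complex.norm_mul_exp_arg_mul_I w).symm
  have e : (Complex.exp (-((φ : ℝ) * Complex.I)) * w).re = ‖w‖ * Real.cos (Complex.arg w - φ) := by
    conv_lhs => rw [hw]
    rw [mul_left_comm, ← Complex.exp_add]
    have : -((φ : ℝ) * Complex.I) + (Complex.arg w : ℂ) * Complex.I =
        ((Complex.arg w - φ : ℝ) : ℂ) * Complex.I := by push_cast; ring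
    rw [this, Complex.re_ofReal_mul, Complex.exp_ofReal_mul_I_re]
  rw [e] at h1
  have h2 : |Complex.arg w - φ| ≤ Real.pi / J := by
    rw [hφ, ← sub_sub]; exact him
  have h3 : 1 - Real.pi / J ≤ Real.cos (Complex.arg w - φ) := by
    have h4 : 1 - |Complex.arg w - φ| ≤ Real.cos (Complex.arg w - φ) := by
      rcases le_total |Complex.arg w - φ| 1 with h5 | h5
      · have h6 := Real.one_sub_sq_div_two_le_cos (x := Complex.arg w - φ)
        rw [← sq_abs] at h6
        nlinarith [abs_nonneg (Complex.arg w - φ)]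
      · rcases le_total |Complex.arg w - φ| 2 with h7 | h7
        · have h6 := Real.one_sub_sq_div_two_le_cos (x := Complex.arg w - φ)
          rw [← sq_abs] at h6
          nlinarith [abs_nonneg (Complex.arg w - φ)]
        · have := Real.neg_one_le_cos (Complex.arg w - φ)
          linarith
    linarith
  calc ‖w‖ * (1 - Real.pi / J) ≤ ‖w‖ * Real.cos (Complex.arg w - φ) := by gcongr
    _ ≤ B := h1

end Pool.Agent.Helper722.LogPoly
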