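import Mathlib
import Pool.Agent.Helper722.LogPoly.Trig
import Pool.Agent.Helper722.LogPoly.Mgf
import Pool.Agent.Helper722.LogPoly.Poly

set_option autoImplicit false
set_option linter.unusedSectionVars false

open Finset MeasureTheory ProbabilityTheory Filter Topology

namespace Pool.Agent.Helper722.LogPoly

variable {Ω : Type*} [MeasurableSpace Ω] {P : Measure Ω} [IsProbabilityMeasure P]

/-- Chernoff bound. -/
lemma chernoff {X : ℕ → Ω → ℝ} {t₀ A : ℝ} (hX : ExpCtl P X t₀ A) (s : Finset ℕ)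
    (hs : ∀ k ∈ s, 1 ≤ k) (c : ℕ → ℝ) (lam : ℝ) (hlam : 0 ≤ lam)
    (hc : ∀ k ∈ s, |lam * c k| ≤ t₀) (y : ℝ) :
    P.real {ω | y ≤ ∑ k ∈ s, c k * X k ω} ≤
      Real.exp (-(lam * y) + ∑ k ∈ s, ((lam * c k) ^ 2 / 2 + A * |lam * c k| ^ 3)) := by
  obtain ⟨hI, -, hhi⟩ := hX.2 s (fun k => lam * c k) hs hc
  have e : ∀ ω, lam * ∑ k ∈ s, c k * X k ω = ∑ k ∈ s, lam * c k * X k ω := by
    intro ω; rw [Finset.mul_sum]; exact Finset.sum_congr rfl fun k _ => by ring
  have h := measure_ge_le_exp_mul_mgf (μ := P) (X := fun ω => ∑ k ∈ s, c k * X k ω) (t := lam) y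
    hlam (by simpa only [e] using hI)
  refine h.trans ?_
  rw [Real.exp_add, neg_mul]
  apply mul_le_mul_of_nonneg_left _ (Real.exp_pos _).le
  simpa only [mgf, e] using hhi

/-- logarithmic bound for the oscillating sum. -/
lemma sum_cos_le_log (θ φ : ℝ) (n : ℕ) (hn : 1 ≤ n) :
    ∑ k ∈ Ioc 0 n, Real.cos (2 * (k * θ - φ)) / k ≤ 1 + Real.log n := by
  have h1 : ∀ k ∈ Ioc 0 n, Real.cos (2 * (k * θ - φ)) / k ≤ 1 / (k : ℝ) := by
    intro k hk
    have : (0 : ℝ) < k := by exact_mod_cast (Finset.mem_Ioc.mp hk).1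
    have := Real.cos_le_one (2 * (k * θ - φ))
    gcongr
  refine (Finset.sum_le_sum h1).trans ?_
  have e : Ioc 0 n = insert 1 (Ioc 1 n) := by
    ext k; simp only [Finset.mem_Ioc, Finset.mem_insert]; omega
  rw [e, Finset.sum_insert (by simp)]
  have := sum_inv_le_log 1 n le_rfl hn
  simp only [Nat.cast_one, Real.log_one, sub_zero] at this
  simp only [Nat.cast_one, div_one]
  linarith

lemma sum_cos_le_sin (θ φ : ℝ) (hθ : Real.sin θ ≠ 0) (n : ℕ) (hn : 1 ≤ n) :
    ∑ k ∈ Ioc 0 n, Real.cos (2 * (k * θ - φ)) / k ≤ 2 + Real.log (1 / |Real.sin θ|) := by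
  set s := |Real.sin θ| with hs
  have hs0 : 0 < s := abs_pos.mpr hθ
  have hs1 : s ≤ 1 := Real.abs_sin_le_one θ
  have hs2 : 1 ≤ 1 / s := by rw [le_div_iff₀ hs0]; linarith
  set m := ⌊1 / s⌋₊ with hm
  have hm1 : 1 ≤ m := by rw [hm]; exact Nat.le_floor (by simpa using hs2)
  have hm2 : (m : ℝ) ≤ 1 / s := Nat.floor_le (by positivity)
  have hm3 : 1 / s < m + 1 := Nat.lt_floor_add_one _
  have hm0 : (0 : ℝ) < m := by exact_mod_cast hm1
  rcases le_total n m with h | h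
  · refine (sum_cos_le_log θ φ n hn).trans ?_
    have h1 : Real.log n ≤ Real.log (1 / s) := by
      apply Real.log_le_log (by exact_mod_cast hn)
      have : (n : ℝ) ≤ m := by exact_mod_cast h
      linarith
    linarith
  · have e : Ioc 0 n = (Ioc 0 m) ∪ (Ioc m n) := by
      rw [Finset.Ioc_union_Ioc_eq_Ioc (Nat.zero_le _) h]
    rw [e, Finset.sum_union (Finset.Ioc_disjoint_Ioc_of_le le_rfl)]
    have h1 := sum_cos_le_log θ φ m hm1
    have h2 : Real.log m ≤ Real.log (1 / s) := Real.log_le_log hm0 hm2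
    have h3 := abs_sum_cos_div_le (2 * θ) (-(2 * φ)) (by
      rw [mul_div_cancel_left₀ _ (two_ne_zero)]; exact hθ) m n
    rw [mul_div_cancel_left₀ _ (two_ne_zero), ← hs] at h3
    have h4 : 1 / ((m + 1 : ℝ) * s) ≤ 1 := by
      rw [div_le_one (by positivity)]
      rw [div_lt_iff₀ hs0] at hm3
      linarith
    have h5 : ∑ k ∈ Ioc m n, Real.cos (2 * (k * θ - φ)) / k =
        ∑ k ∈ Ioc m n, Real.cos (k * (2 * θ) + -(2 * φ)) / k := by
      refine Finset.sum_congr rfl fun k _ => ?_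
      congr 2; ring
    rw [h5]
    have h6 := (le_abs_self (∑ k ∈ Ioc m n, Real.cos (k * (2 * θ) + -(2 * φ)) / k)).trans h3
    linarith

/-- `exp` of the oscillating sum, usable form. -/
lemma exp_sum_cos_le_one (θ φ : ℝ) (n : ℕ) (hn : 1 ≤ n) :
    Real.exp (∑ k ∈ Ioc 0 n, Real.cos (2 * (k * θ - φ)) / k) ≤ Real.exp 2 * n := by
  have hn0 : (0 : ℝ) < n := by exact_mod_cast hn
  calc Real.exp (∑ k ∈ Ioc 0 n, Real.cos (2 * (k * θ - φ)) / k)
      ≤ Real.exp (2 + Real.log n) := by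
        apply Real.exp_le_exp.mpr
        have := sum_cos_le_log θ φ n hn
        linarith
    _ = Real.exp 2 * n := by rw [Real.exp_add, Real.exp_log hn0]

lemma exp_sum_cos_le_two (θ φ : ℝ) (hθ : Real.sin θ ≠ 0) (n : ℕ) (hn : 1 ≤ n) :
    Real.exp (∑ k ∈ Ioc 0 n, Real.cos (2 * (k * θ - φ)) / k) ≤ Real.exp 2 / |Real.sin θ| := by
  have hs0 : 0 < |Real.sin θ| := abs_pos.mpr hθ
  calc Real.exp (∑ k ∈ Ioc 0 n, Real.cos (2 * (k * θ - φ)) / k)
      ≤ Real.exp (2 + Real.log (1 / |Real.sin θ|)) :=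
        Real.exp_le_exp.mpr (sum_cos_le_sin θ φ hθ n hn)
    _ = Real.exp 2 / |Real.sin θ| := by
        rw [Real.exp_add, Real.exp_log (by positivity)]; ring

/-- `sin (π j / N) ≥ 2 min (j/N) (1 - j/N)`, in reciprocal form. -/
lemma inv_sin_le (N j : ℕ) (hj : 0 < j) (hjN : j < N) :
    0 < Real.sin (Real.pi * j / N) ∧
    1 / Real.sin (Real.pi * j / N) ≤ (N : ℝ) / j + (N : ℝ) / (N - j : ℕ) := by
  have hN0 : (0 : ℝ) < N := by exact_mod_cast (hj.trans hjN)
  have hj0 : (0 : ℝ) < j := by exact_mod_cast hj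
  have hNj : (0 : ℝ) < ((N - j : ℕ) : ℝ) := by exact_mod_cast Nat.sub_pos_of_lt hjN
  have hNj' : ((N - j : ℕ) : ℝ) = N - j := by rw [Nat.cast_sub hjN.le]
  have hpi := Real.pi_pos
  rcases le_total (2 * j) N with h | h
  · have h' : 2 * (j : ℝ) ≤ N := by exact_mod_cast h
    have h1 : 2 / Real.pi * (Real.pi * j / N) ≤ Real.sin (Real.pi * j / N) := by
      apply Real.mul_le_sin (by positivity)
      rw [div_le_div_iff₀ hN0 two_pos]
      nlinarith
    have e : 2 / Real.pi * (Real.pi * j / N) = 2 * j / N := by field_simp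
    rw [e] at h1
    have hpos : 0 < 2 * (j : ℝ) / N := by positivity
    refine ⟨lt_of_lt_of_le hpos h1, ?_⟩
    calc 1 / Real.sin (Real.pi * j / N) ≤ 1 / (2 * j / N) := one_div_le_one_div_of_le hpos h1
      _ = (N : ℝ) / (2 * j) := by field_simp
      _ ≤ (N : ℝ) / j := by gcongr; linarith
      _ ≤ _ := by
        have : 0 ≤ (N : ℝ) / (N - j : ℕ) := by positivity
        linarith
  · have h' : (N : ℝ) ≤ 2 * j := by exact_mod_cast h
    have e0 : Real.sin (Real.pi * j / N) = Real.sin (Real.pi * (N - j : ℕ) / N) := by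
      rw [← Real.sin_pi_sub]
      congr 1
      rw [hNj']
      field_simp
    rw [e0]
    have h1 : 2 / Real.pi * (Real.pi * (N - j : ℕ) / N) ≤ Real.sin (Real.pi * (N - j : ℕ) / N) := by
      apply Real.mul_le_sin (by positivity)
      rw [div_le_div_iff₀ hN0 two_pos, hNj']
      nlinarith
    have e : 2 / Real.pi * (Real.pi * (N - j : ℕ) / N) = 2 * (N - j : ℕ) / N := by field_simp
    rw [e] at h1
    have hpos : 0 < 2 * ((N - j : ℕ) : ℝ) / N := by positivity
    refine ⟨lt_of_lt_of_le hpos h1, ?_⟩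
    calc 1 / Real.sin (Real.pi * (N - j : ℕ) / N)
        ≤ 1 / (2 * (N - j : ℕ) / N) := one_div_le_one_div_of_le hpos h1
      _ = (N : ℝ) / (2 * (N - j : ℕ)) := by field_simp
      _ ≤ (N : ℝ) / (N - j : ℕ) := by gcongr; linarith
      _ ≤ _ := by
        have : 0 ≤ (N : ℝ) / j := by positivity
        linarith

/-- Sum over half the grid. -/
lemma sum_half_grid (n N : ℕ) (hn : 1 ≤ n) (hN : n ≤ N) (φ : ℝ) (σ : ℝ) (hσ : σ = 0 ∨ σ = Real.pi) :
    ∑ j ∈ range N, Real.exp (∑ k ∈ Ioc 0 n,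
      Real.cos (2 * (k * (Real.pi * j / N + σ) - φ)) / k) ≤
      Real.exp 2 * N * (3 + 2 * Real.log N) := by
  have hN1 : 1 ≤ N := hn.trans hN
  have hN0 : (0 : ℝ) < N := by exact_mod_cast hN1
  have hsin : ∀ x : ℝ, |Real.sin (x + σ)| = |Real.sin x| := by
    intro x
    rcases hσ with h | h
    · rw [h, add_zero]
    · rw [h, Real.sin_add_pi, abs_neg]
  have e : range N = insert 0 (Ico 1 N) := by
    ext k; simp only [Finset.mem_range, Finset.mem_insert, Finset.mem_Ico]; omega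
  rw [e, Finset.sum_insert (by simp)]
  have h0 := exp_sum_cos_le_one (Real.pi * (0 : ℕ) / N + σ) φ n hn
  have h1 : ∀ j ∈ Ico 1 N, Real.exp (∑ k ∈ Ioc 0 n,
      Real.cos (2 * (k * (Real.pi * j / N + σ) - φ)) / k) ≤
      Real.exp 2 * ((N : ℝ) / j + (N : ℝ) / (N - j : ℕ)) := by
    intro j hj
    rw [Finset.mem_Ico] at hj
    obtain ⟨hp, hq⟩ := inv_sin_le N j hj.1 hj.2
    have habs : |Real.sin (Real.pi * j / N + σ)| = Real.sin (Real.pi * j / N) := by
      rw [hsin, abs_of_pos hp]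
    have hne : Real.sin (Real.pi * j / N + σ) ≠ 0 := by
      rw [← abs_pos, habs]; exact hp
    refine (exp_sum_cos_le_two _ φ hne n hn).trans ?_
    rw [habs, div_eq_mul_one_div]
    gcongr
  have h2 : ∑ j ∈ Ico 1 N, (N : ℝ) / (N - j : ℕ) = ∑ j ∈ Ico 1 N, (N : ℝ) / j := by
    refine Finset.sum_nbij' (fun j => N - j) (fun j => N - j) ?_ ?_ ?_ ?_ ?_
    · intro j hj; simp only [Finset.mem_Ico] at *; omega
    · intro j hj; simp only [Finset.mem_Ico] at *; omega
    · intro j hj; simp only [Finset.mem_Ico] at *; omega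
    · intro j hj; simp only [Finset.mem_Ico] at *; omega
    · intro j hj; rfl
  have h3 : ∑ j ∈ Ico 1 N, (N : ℝ) / j ≤ N * (1 + Real.log N) := by
    have e1 : ∑ j ∈ Ico 1 N, (N : ℝ) / j = N * ∑ j ∈ Ico 1 N, 1 / (j : ℝ) := by
      rw [Finset.mul_sum]; exact Finset.sum_congr rfl fun j _ => by ring
    rw [e1]
    apply mul_le_mul_of_nonneg_left _ hN0.le
    have h4 : ∑ j ∈ Ico 1 N, 1 / (j : ℝ) ≤ ∑ j ∈ Ioc 0 N, 1 / (j : ℝ) := by
      apply Finset.sum_le_sum_of_subset_of_nonneg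
      · intro j hj; simp only [Finset.mem_Ico, Finset.mem_Ioc] at *; omega
      · intros; positivity
    refine h4.trans ?_
    have e : Ioc 0 N = insert 1 (Ioc 1 N) := by
      ext k; simp only [Finset.mem_Ioc, Finset.mem_insert]; omega
    rw [e, Finset.sum_insert (by simp)]
    have := sum_inv_le_log 1 N le_rfl hN1
    simp only [Nat.cast_one, Real.log_one, sub_zero] at this
    simp only [Nat.cast_one, div_one]
    linarith
  have h4 := Finset.sum_le_sum h1
  rw [← Finset.mul_sum, Finset.sum_add_distrib, h2] at h4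
  have hnN : (n : ℝ) ≤ N := by exact_mod_cast hN
  have he : 0 < Real.exp 2 := Real.exp_pos 2
  calc _ ≤ Real.exp 2 * n + Real.exp 2 * (∑ j ∈ Ico 1 N, (N : ℝ) / j + ∑ j ∈ Ico 1 N, (N : ℝ) / j) :=
        add_le_add h0 h4
    _ ≤ Real.exp 2 * N + Real.exp 2 * (N * (1 + Real.log N) + N * (1 + Real.log N)) := by
        gcongr
    _ = _ := by ring

lemma integrable_abs {X : ℕ → Ω → ℝ} {t₀ A : ℝ} (ht₀ : 0 < t₀) (hX : ExpCtl P X t₀ A)
    (k : ℕ) (hk : 1 ≤ k) : Integrable (fun ω => |X k ω|) P := by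
  have h1 := (hX.2 {k} (fun _ => t₀) (by simpa using hk) (by simp [abs_of_pos ht₀])).1
  have h2 := (hX.2 {k} (fun _ => -t₀) (by simpa using hk) (by simp [abs_of_pos ht₀])).1
  simp only [Finset.sum_singleton] at h1 h2
  refine Integrable.mono' ((h1.add h2).const_mul (1 / t₀)) ((hX.1 k).abs.aestronglyMeasurable)
    (Filter.Eventually.of_forall fun ω => ?_)
  rw [Real.norm_eq_abs, abs_abs, Pi.add_apply, div_mul_eq_mul_div, one_mul, le_div_iff₀ ht₀]
  have h3 : |X k ω| * t₀ = |t₀ * X k ω| := by rw [abs_mul, abs_of_pos ht₀, mul_comm]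
  rw [h3]
  have h4 := Real.add_one_le_exp |t₀ * X k ω|
  have h5 : Real.exp |t₀ * X k ω| ≤ Real.exp (t₀ * X k ω) + Real.exp (-t₀ * X k ω) := by
    rcases abs_choice (t₀ * X k ω) with h | h
    · rw [h]; have := Real.exp_pos (-t₀ * X k ω); linarith
    · rw [h, neg_mul]; have := Real.exp_pos (t₀ * X k ω); linarith
  linarith

lemma tail_tendsto (R : Ω → ℝ) (hR : Integrable R P) (hR0 : ∀ ω, 0 ≤ R ω) (η : ℝ) (hη : 0 < η) :
    Tendsto (fun n : ℕ => P.real {ω | η * Real.log n ≤ R ω}) atTop (𝓝 0) := by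
  have hlog : Tendsto (fun n : ℕ => η * Real.log n) atTop atTop :=
    (Real.tendsto_log_atTop.comp tendsto_natCast_atTop_atTop).const_mul_atTop hη
  have hlim : Tendsto (fun n : ℕ => (∫ ω, R ω ∂P) / (η * Real.log n)) atTop (𝓝 0) :=
    hlog.const_div_atTop _
  refine squeeze_zero' (Filter.Eventually.of_forall fun n => measureReal_nonneg) ?_ hlim
  filter_upwards [hlog.eventually_gt_atTop 0] with n hn
  rw [le_div_iff₀ hn, mul_comm]
  exact mul_meas_ge_le_integral_of_nonneg (Filter.Eventually.of_forall hR0) hR _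

lemma re_eq (n : ℕ) (x : ℕ → ℝ) (θ φ : ℝ) :
    (Complex.exp (-((φ : ℝ) * Complex.I)) * ∑ k ∈ range (n + 1),
      ((x k / Real.sqrt k : ℝ) : ℂ) * (Complex.exp ((θ : ℝ) * Complex.I)) ^ k).re =
    ∑ k ∈ Ioc 0 n, Real.cos (k * θ - φ) / Real.sqrt k * x k := by
  have e : range (n + 1) = insert 0 (Ioc 0 n) := by
    ext k; simp only [Finset.mem_range, Finset.mem_insert, Finset.mem_Ioc]; omega
  rw [e, Finset.sum_insert (by simp)]
  simp only [Nat.cast_zero, Real.sqrt_zero, div_zero, Complex.ofReal_zero, zero_mul, zero_add]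
  rw [Finset.mul_sum, Complex.re_sum]
  refine Finset.sum_congr rfl fun k _ => ?_
  rw [← Complex.exp_nat_mul, mul_left_comm, ← Complex.exp_add]
  have : -((φ : ℝ) * Complex.I) + (k : ℂ) * ((θ : ℝ) * Complex.I) =
      ((k * θ - φ : ℝ) : ℂ) * Complex.I := by push_cast; ring
  rw [this, Complex.re_ofReal_mul, Complex.exp_ofReal_mul_I_re]
  ring

/-- probability bound at one grid point and direction -/
lemma point_bound {X : ℕ → Ω → ℝ} {t₀ A : ℝ} (hA : 0 < A) (hX : ExpCtl P X t₀ A) (k₀ : ℕ)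
    (hk₀ : 1 ≤ k₀) (hk₀t : 2 / Real.sqrt k₀ ≤ t₀) (n : ℕ) (hn : 1 ≤ n) (θ φ y : ℝ) :
    P.real {ω | y ≤ ∑ k ∈ Ioc k₀ n, Real.cos (k * θ - φ) / Real.sqrt k * X k ω} ≤
      Real.exp (-(2 * y) + (16 * A + 1)) * n *
        Real.exp (∑ k ∈ Ioc 0 n, Real.cos (2 * (k * θ - φ)) / k) := by
  have hn0 : (0 : ℝ) < n := by exact_mod_cast hn
  have hk₀0 : (0 : ℝ) < k₀ := by exact_mod_cast hk₀
  have hsq0 : 0 < Real.sqrt k₀ := Real.sqrt_pos.mpr hk₀0
  have hpos : ∀ k ∈ Ioc k₀ n, (0 : ℝ) < k := by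
    intro k hk
    have := (Finset.mem_Ioc.mp hk).1
    exact_mod_cast (by omega : 0 < k)
  have habs : ∀ k ∈ Ioc k₀ n, |2 * (Real.cos (k * θ - φ) / Real.sqrt k)| ≤ 2 / Real.sqrt k := by
    intro k hk
    have h1 : 0 < Real.sqrt k := Real.sqrt_pos.mpr (hpos k hk)
    rw [abs_mul, abs_div, abs_two, abs_of_pos h1]
    have := Real.abs_cos_le_one (k * θ - φ)
    calc 2 * (|Real.cos (k * θ - φ)| / Real.sqrt k) ≤ 2 * (1 / Real.sqrt k) := by gcongr
      _ = 2 / Real.sqrt k := by ring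
  have h := chernoff hX (Ioc k₀ n) (fun k hk => by
      have := (Finset.mem_Ioc.mp hk).1; omega)
    (fun k => Real.cos (k * θ - φ) / Real.sqrt k) 2 (by norm_num) (fun k hk => by
      refine (habs k hk).trans (le_trans ?_ hk₀t)
      have : Real.sqrt k₀ ≤ Real.sqrt k := Real.sqrt_le_sqrt (by
        exact_mod_cast (Finset.mem_Ioc.mp hk).1.le)
      gcongr) y
  refine h.trans ?_
  have h1 : ∑ k ∈ Ioc k₀ n, ((2 * (Real.cos (k * θ - φ) / Real.sqrt k)) ^ 2 / 2 +
      A * |2 * (Real.cos (k * θ - φ) / Real.sqrt k)| ^ 3) ≤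
      ∑ k ∈ Ioc k₀ n, (1 + Real.cos (2 * (k * θ - φ))) / k +
        8 * A * ∑ k ∈ Ioc k₀ n, 1 / ((k : ℝ) * Real.sqrt k) := by
    rw [Finset.mul_sum, ← Finset.sum_add_distrib]
    refine Finset.sum_le_sum fun k hk => ?_
    have hk0 := hpos k hk
    have h2 : 0 < Real.sqrt k := Real.sqrt_pos.mpr hk0
    have h3 : Real.sqrt k ^ 2 = k := Real.sq_sqrt hk0.le
    have e1 : (2 * (Real.cos (k * θ - φ) / Real.sqrt k)) ^ 2 / 2 =
        (1 + Real.cos (2 * (k * θ - φ))) / k := by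
      rw [Real.cos_two_mul, mul_pow, div_pow, h3]; ring
    have e2 : |2 * (Real.cos (k * θ - φ) / Real.sqrt k)| ^ 3 ≤ 8 * (1 / ((k : ℝ) * Real.sqrt k)) := by
      calc |2 * (Real.cos (k * θ - φ) / Real.sqrt k)| ^ 3 ≤ (2 / Real.sqrt k) ^ 3 :=
            pow_le_pow_left₀ (abs_nonneg _) (habs k hk) 3
        _ = 8 * (1 / (Real.sqrt k ^ 2 * Real.sqrt k)) := by field_simp; norm_num
        _ = _ := by rw [h3]
    rw [e1]
    have : A * |2 * (Real.cos (k * θ - φ) / Real.sqrt k)| ^ 3 ≤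
        A * (8 * (1 / ((k : ℝ) * Real.sqrt k))) := mul_le_mul_of_nonneg_left e2 hA.le
    linarith
  have h2 : 8 * A * ∑ k ∈ Ioc k₀ n, 1 / ((k : ℝ) * Real.sqrt k) ≤ 16 * A := by
    have h3 := sum_inv_mul_sqrt_le k₀ n hk₀
    have h4 : 1 ≤ Real.sqrt k₀ := Real.one_le_sqrt.mpr (by exact_mod_cast hk₀)
    have h5 : 2 / Real.sqrt k₀ ≤ 2 := by
      rw [div_le_iff₀ hsq0]; linarith
    nlinarith
  have h3 : ∑ k ∈ Ioc k₀ n, (1 + Real.cos (2 * (k * θ - φ))) / k ≤
      1 + Real.log n + ∑ k ∈ Ioc 0 n, Real.cos (2 * (k * θ - φ)) / k := by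
    have h4 : ∑ k ∈ Ioc k₀ n, (1 + Real.cos (2 * (k * θ - φ))) / (k : ℝ) ≤
        ∑ k ∈ Ioc 0 n, (1 + Real.cos (2 * (k * θ - φ))) / (k : ℝ) := by
      apply Finset.sum_le_sum_of_subset_of_nonneg
      · intro k hk; simp only [Finset.mem_Ioc] at *; omega
      · intro k _ _
        have := Real.neg_one_le_cos (2 * (k * θ - φ))
        apply div_nonneg (by linarith) (Nat.cast_nonneg k)
    refine h4.trans ?_
    have e : ∑ k ∈ Ioc 0 n, (1 + Real.cos (2 * (k * θ - φ))) / (k : ℝ) =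
        ∑ k ∈ Ioc 0 n, 1 / (k : ℝ) + ∑ k ∈ Ioc 0 n, Real.cos (2 * (k * θ - φ)) / k := by
      rw [← Finset.sum_add_distrib]
      exact Finset.sum_congr rfl fun k _ => by ring
    rw [e]
    have h5 : ∑ k ∈ Ioc 0 n, 1 / (k : ℝ) ≤ 1 + Real.log n := by
      have e : Ioc 0 n = insert 1 (Ioc 1 n) := by
        ext k; simp only [Finset.mem_Ioc, Finset.mem_insert]; omega
      rw [e, Finset.sum_insert (by simp)]
      have := sum_inv_le_log 1 n le_rfl hn
      simp only [Nat.cast_one, Real.log_one, sub_zero] at this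
      simp only [Nat.cast_one, div_one]
      linarith
    linarith
  calc Real.exp (-(2 * y) + ∑ k ∈ Ioc k₀ n, ((2 * (Real.cos (k * θ - φ) / Real.sqrt k)) ^ 2 / 2 +
      A * |2 * (Real.cos (k * θ - φ) / Real.sqrt k)| ^ 3))
      ≤ Real.exp ((-(2 * y) + (16 * A + 1)) + Real.log n +
          ∑ k ∈ Ioc 0 n, Real.cos (2 * (k * θ - φ)) / k) := by
        apply Real.exp_le_exp.mpr
        linarith
    _ = _ := by rw [Real.exp_add, Real.exp_add, Real.exp_log hn0]

/-- The elementary limit used for the union bound. -/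
lemma limit_aux (C D b : ℝ) (hb : 0 < b) :
    Tendsto (fun n : ℕ => C * (D + 2 * Real.log n) * Real.exp (-(b * Real.log n))) atTop (𝓝 0) := by
  have h1 : Tendsto (fun x : ℝ => x ^ 1 * Real.exp (-x)) atTop (𝓝 0) :=
    Real.tendsto_pow_mul_exp_neg_atTop_nhds_zero 1
  have h0 : Tendsto (fun x : ℝ => Real.exp (-x)) atTop (𝓝 0) := by
    simpa using Real.tendsto_pow_mul_exp_neg_atTop_nhds_zero 0
  have hlog : Tendsto (fun n : ℕ => b * Real.log n) atTop atTop :=
    (Real.tendsto_log_atTop.comp tendsto_natCast_atTop_atTop).const_mul_atTop hb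
  have h2 := (h1.comp hlog).const_mul (C * 2 / b)
  have h3 := (h0.comp hlog).const_mul (C * D)
  have h4 := h2.add h3
  simp only [mul_zero, add_zero] at h4
  refine h4.congr fun n => ?_
  simp only [Function.comp_apply, pow_one]
  field_simp
  ring

/-- Upper tail. -/
theorem upper_tail {X : ℕ → Ω → ℝ} {t₀ A : ℝ} (ht₀ : 0 < t₀) (hA : 0 < A)
    (hX : ExpCtl P X t₀ A) (ε : ℝ) (hε : 0 < ε) :
    Tendsto (fun n : ℕ => P.real {ω | ∃ z : ℂ, ‖z‖ = 1 ∧ (1 + ε) * Real.log n ≤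
      ‖∑ k ∈ range (n + 1), ((X k ω / Real.sqrt k : ℝ) : ℂ) * z ^ k‖}) atTop (𝓝 0) := by
  -- parameters
  set δ : ℝ := ε / (8 * (1 + ε)) with hδ
  have hδ0 : 0 < δ := by positivity
  have hδ1 : δ < 1 / 8 := by
    rw [hδ, div_lt_div_iff₀ (by positivity) (by norm_num)]; linarith
  obtain ⟨J, hJ⟩ := exists_nat_gt (Real.pi / δ)
  obtain ⟨L, hL⟩ := exists_nat_gt (9 / δ)
  obtain ⟨q, hq⟩ := exists_nat_gt ((2 / t₀) ^ 2)
  set k₀ := q + 1 with hk₀def
  have hk₀ : 1 ≤ k₀ := by omega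
  have hk₀t : 2 / Real.sqrt k₀ ≤ t₀ := by
    have h1 : 2 / t₀ ≤ Real.sqrt k₀ := by
      apply Real.le_sqrt_of_sq_le
      rw [hk₀def]; push_cast; linarith
    have h2 : 0 < Real.sqrt k₀ := Real.sqrt_pos.mpr (by exact_mod_cast hk₀)
    rw [div_le_iff₀ ht₀] at h1
    rw [div_le_iff₀ h2]
    linarith
  have hpi := Real.pi_pos
  have hJ0 : (0 : ℝ) < J := lt_trans (by positivity) hJ
  have hL0 : (0 : ℝ) < L := lt_trans (by positivity) hL
  have hJ1 : 1 ≤ J := by exact_mod_cast hJ0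
  have hL1 : 1 ≤ L := by exact_mod_cast hL0
  have hLbig : (72 : ℝ) < L := by
    have : 72 < 9 / δ := by
      rw [lt_div_iff₀ hδ0]; linarith
    linarith
  have hL9 : 9 < 2 * L := by
    have : (72 : ℝ) < L := hLbig
    have h' : 72 < L := by exact_mod_cast this
    omega
  have hJδ : Real.pi / J ≤ δ := by
    rw [div_lt_iff₀ hδ0] at hJ
    rw [div_le_iff₀ hJ0]; linarith
  have hLδ : 9 / ((2 * L : ℕ) : ℝ) ≤ δ := by
    rw [div_lt_iff₀ hδ0] at hL
    push_cast
    rw [div_le_iff₀ (by positivity)]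
    nlinarith
  -- remainder variable
  set R : Ω → ℝ := fun ω => ∑ k ∈ Ioc 0 k₀, |X k ω| with hR
  have hRint : Integrable R P := by
    rw [hR]
    refine integrable_finsetSum _ fun k hk => ?_
    exact integrable_abs ht₀ hX k (Finset.mem_Ioc.mp hk).1
  have hR0 : ∀ ω, 0 ≤ R ω := fun ω => Finset.sum_nonneg fun k _ => abs_nonneg _
  have hlim1 := tail_tendsto (P := P) R hRint hR0 (ε / 4) (by positivity)
  set C : ℝ := 2 * J * (L * Real.exp (16 * A + 1) * Real.exp 2) with hC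
  have hlim2 := limit_aux C (3 + 2 * Real.log L) (ε / 2) (by positivity)
  have hlim := hlim1.add hlim2
  rw [add_zero] at hlim
  refine squeeze_zero' (Filter.Eventually.of_forall fun n => measureReal_nonneg) ?_ hlim
  filter_upwards [eventually_ge_atTop (max k₀ 2)] with n hn
  have hnk : k₀ ≤ n := (le_max_left _ _).trans hn
  have hn2 : 2 ≤ n := (le_max_right _ _).trans hn
  have hn1 : 1 ≤ n := by omega
  have hn0 : (0 : ℝ) < n := by exact_mod_cast hn1
  have hlogn : 0 < Real.log n := Real.log_pos (by exact_mod_cast hn2)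
  set N := L * n with hN
  have hN0 : (0 : ℝ) < N := by rw [hN]; push_cast; positivity
  set y : ℝ := (1 + ε / 4) * Real.log n with hy
  set ev : ℝ → ℝ → Set Ω := fun θ φ =>
    {ω | y ≤ ∑ k ∈ Ioc k₀ n, Real.cos (k * θ - φ) / Real.sqrt k * X k ω} with hev
  set E1 : Set Ω := {ω | ε / 4 * Real.log n ≤ R ω} with hE1
  -- inclusion
  have hincl : {ω | ∃ z : ℂ, ‖z‖ = 1 ∧ (1 + ε) * Real.log n ≤
      ‖∑ k ∈ range (n + 1), ((X k ω / Real.sqrt k : ℝ) : ℂ) * z ^ k‖} ⊆
      E1 ∪ ((⋃ i ∈ range J, ⋃ j ∈ range N, ev (Real.pi * j / N + 0) (2 * Real.pi * i / J)) ∪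
        (⋃ i ∈ range J, ⋃ j ∈ range N, ev (Real.pi * j / N + Real.pi) (2 * Real.pi * i / J))) := by
    intro ω hω
    by_contra hcon
    simp only [Set.mem_union, not_or] at hcon
    obtain ⟨hc1, hc2, hc3⟩ := hcon
    simp only [Set.mem_iUnion, not_exists, exists_prop, not_and, Finset.mem_range] at hc2 hc3
    have hc1' : R ω < ε / 4 * Real.log n := by
      simpa [hE1] using hc1
    obtain ⟨z, hz, hzn⟩ := hω
    -- value at one grid point and direction
    have hval : ∀ θ φ : ℝ, ω ∉ ev θ φ →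
        (Complex.exp (-((φ : ℝ) * Complex.I)) * ∑ k ∈ range (n + 1),
          ((X k ω / Real.sqrt k : ℝ) : ℂ) * (Complex.exp ((θ : ℝ) * Complex.I)) ^ k).re ≤
          (1 + ε / 2) * Real.log n := by
      intro θ φ hne
      rw [re_eq n (fun k => X k ω) θ φ]
      have e : Ioc 0 n = (Ioc 0 k₀) ∪ (Ioc k₀ n) := by
        rw [Finset.Ioc_union_Ioc_eq_Ioc (Nat.zero_le _) hnk]
      rw [e, Finset.sum_union (Finset.Ioc_disjoint_Ioc_of_le le_rfl)]
      have h1 : ∑ k ∈ Ioc k₀ n, Real.cos (k * θ - φ) / Real.sqrt k * X k ω ≤ y := by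
        simp only [hev, Set.mem_ofPred_eq, not_le] at hne
        exact hne.le
      have h2 : ∑ k ∈ Ioc 0 k₀, Real.cos (k * θ - φ) / Real.sqrt k * X k ω ≤ R ω := by
        refine Finset.sum_le_sum fun k hk => ?_
        have hk1 : 1 ≤ k := (Finset.mem_Ioc.mp hk).1
        have hs : 1 ≤ Real.sqrt k := Real.one_le_sqrt.mpr (by exact_mod_cast hk1)
        refine (le_abs_self _).trans ?_
        rw [abs_mul, abs_div, abs_of_pos (lt_of_lt_of_le one_pos hs)]
        have h3 : |Real.cos (k * θ - φ)| / Real.sqrt k ≤ 1 := by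
          rw [div_le_one (by linarith)]
          exact (Real.abs_cos_le_one _).trans hs
        calc |Real.cos (k * θ - φ)| / Real.sqrt k * |X k ω| ≤ 1 * |X k ω| := by gcongr
          _ = |X k ω| := one_mul _
      rw [hy] at h1
      linarith
    -- all values at the grid
    have hgrid : ∀ θ : ℝ, (∀ i < J, ω ∉ ev θ (2 * Real.pi * i / J)) →
        ‖∑ k ∈ range (n + 1),
          ((X k ω / Real.sqrt k : ℝ) : ℂ) * (Complex.exp ((θ : ℝ) * Complex.I)) ^ k‖ ≤
          (1 + ε / 2) * Real.log n / (1 - δ) := by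
      intro θ hθ
      rw [le_div_iff₀ (by linarith)]
      have h1 := dir_bound (∑ k ∈ range (n + 1),
          ((X k ω / Real.sqrt k : ℝ) : ℂ) * (Complex.exp ((θ : ℝ) * Complex.I)) ^ k) J hJ1
          ((1 + ε / 2) * Real.log n) (fun i hi => hval θ _ (hθ i hi))
      refine le_trans ?_ h1
      gcongr
    have hgb := grid_bound n hn1 (fun k => ((X k ω / Real.sqrt k : ℝ) : ℂ)) (2 * L) hL9
      ((1 + ε / 2) * Real.log n / (1 - δ)) (by
        intro j hj
        have hj' : j < 2 * N := by rw [hN]; linarith [hj, mul_assoc 2 L n]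
        rcases lt_or_ge j N with h | h
        · have e : 2 * Real.pi * j / ((2 * L * n : ℕ) : ℝ) = Real.pi * j / N + 0 := by
            rw [hN]; push_cast; field_simp; ring
          rw [e]
          exact hgrid _ (fun i hi => hc2 i hi j h)
        · obtain ⟨j', rfl⟩ := Nat.exists_eq_add_of_le h
          have e : 2 * Real.pi * ((N + j' : ℕ) : ℝ) / ((2 * L * n : ℕ) : ℝ) =
              Real.pi * j' / N + Real.pi := by
            rw [hN]; push_cast; field_simp; ring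
          rw [e]
          exact hgrid _ (fun i hi => hc3 i hi j' (by omega))) z hz
    have h1 : ‖∑ k ∈ range (n + 1), ((X k ω / Real.sqrt k : ℝ) : ℂ) * z ^ k‖ * (1 - δ) ≤
        (1 + ε / 2) * Real.log n / (1 - δ) := by
      refine le_trans ?_ hgb
      gcongr
    rw [le_div_iff₀ (by linarith)] at h1
    have h2 : (1 + ε) * Real.log n * (1 - δ) * (1 - δ) ≤ (1 + ε / 2) * Real.log n := by
      refine le_trans ?_ h1
      have : 0 ≤ 1 - δ := by linarith
      gcongr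
    have h3 : (1 + ε) * (1 - δ) * (1 - δ) ≤ 1 + ε / 2 := by
      have : (1 + ε) * (1 - δ) * (1 - δ) * Real.log n ≤ (1 + ε / 2) * Real.log n := by linarith
      exact le_of_mul_le_mul_right this hlogn
    have h4 : δ * (8 * (1 + ε)) = ε := by rw [hδ]; field_simp
    nlinarith [sq_nonneg δ]
  -- union bound
  have hpt : ∀ θ φ, P.real (ev θ φ) ≤ Real.exp (-(2 * y) + (16 * A + 1)) * n *
        Real.exp (∑ k ∈ Ioc 0 n, Real.cos (2 * (k * θ - φ)) / k) :=
    fun θ φ => point_bound hA hX k₀ hk₀ hk₀t n hn1 θ φ y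
  have hbig : ∀ σ : ℝ, (σ = 0 ∨ σ = Real.pi) →
      P.real (⋃ i ∈ range J, ⋃ j ∈ range N, ev (Real.pi * j / N + σ) (2 * Real.pi * i / J)) ≤
      J * (Real.exp (-(2 * y) + (16 * A + 1)) * n * (Real.exp 2 * N * (3 + 2 * Real.log N))) := by
    intro σ hσ
    refine (measureReal_biUnion_finset_le _ _).trans ?_
    have : ∀ i ∈ range J, P.real (⋃ j ∈ range N, ev (Real.pi * j / N + σ) (2 * Real.pi * i / J)) ≤
        Real.exp (-(2 * y) + (16 * A + 1)) * n * (Real.exp 2 * N * (3 + 2 * Real.log N)) := by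
      intro i _
      refine (measureReal_biUnion_finset_le _ _).trans ?_
      refine (Finset.sum_le_sum fun j _ => hpt _ _).trans ?_
      rw [← Finset.mul_sum]
      apply mul_le_mul_of_nonneg_left _ (by positivity)
      exact sum_half_grid n N hn1 (by rw [hN]; nlinarith) _ σ hσ
    refine (Finset.sum_le_sum this).trans (le_of_eq ?_)
    rw [Finset.sum_const, Finset.card_range, nsmul_eq_mul]
  have hmain : P.real {ω | ∃ z : ℂ, ‖z‖ = 1 ∧ (1 + ε) * Real.log n ≤
      ‖∑ k ∈ range (n + 1), ((X k ω / Real.sqrt k : ℝ) : ℂ) * z ^ k‖} ≤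
      P.real E1 + (J * (Real.exp (-(2 * y) + (16 * A + 1)) * n *
        (Real.exp 2 * N * (3 + 2 * Real.log N))) +
      J * (Real.exp (-(2 * y) + (16 * A + 1)) * n * (Real.exp 2 * N * (3 + 2 * Real.log N)))) := by
    refine (measureReal_mono hincl (measure_ne_top _ _)).trans ?_
    refine (measureReal_union_le _ _).trans ?_
    refine add_le_add le_rfl ?_
    refine (measureReal_union_le _ _).trans ?_
    exact add_le_add (hbig 0 (Or.inl rfl)) (hbig Real.pi (Or.inr rfl))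
  refine hmain.trans (add_le_add le_rfl (le_of_eq ?_))
  have hlogN : Real.log N = Real.log L + Real.log n := by
    rw [hN]; push_cast; rw [Real.log_mul hL0.ne' hn0.ne']
  have hexp : Real.exp (-(2 * y) + (16 * A + 1)) * n * n =
      Real.exp (16 * A + 1) * Real.exp (-(ε / 2 * Real.log n)) := by
    have e1 : Real.exp (-(2 * y) + (16 * A + 1)) =
        Real.exp (16 * A + 1) * (Real.exp (-(ε / 2 * Real.log n)) *
          (Real.exp (-Real.log n) * Real.exp (-Real.log n))) := by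
      rw [← Real.exp_add, ← Real.exp_add, ← Real.exp_add]; congr 1; rw [hy]; ring
    rw [e1, Real.exp_neg (Real.log n), Real.exp_log hn0]
    field_simp
  have hNr : (N : ℝ) = L * n := by rw [hN]; push_cast; ring
  calc J * (Real.exp (-(2 * y) + (16 * A + 1)) * n * (Real.exp 2 * N * (3 + 2 * Real.log N))) +
      J * (Real.exp (-(2 * y) + (16 * A + 1)) * n * (Real.exp 2 * N * (3 + 2 * Real.log N)))
      = 2 * J * L * (Real.exp (-(2 * y) + (16 * A + 1)) * n * n) *
          (Real.exp 2 * (3 + 2 * Real.log N)) := by rw [hNr]; ring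
    _ = _ := by rw [hexp, hlogN, hC]; ring

end Pool.Agent.Helper722.LogPoly
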