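import Mathlib
import Pool.Agent.Helper722.LogPoly.Upper
import Pool.Agent.Helper722.LogPoly.Lower4

set_option autoImplicit false
set_option maxHeartbeats 4000000
set_option linter.unusedSectionVars false

open Finset MeasureTheory ProbabilityTheory Filter Topology

namespace Pool.Agent.Helper722.LogPoly

variable {Ω : Type*} [MeasurableSpace Ω] {P : Measure Ω} [IsProbabilityMeasure P]

lemma HH_tendsto : Tendsto (fun r : ℕ => HH (r ^ 2) (r ^ 3)) atTop atTop := by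
  have h1 : Tendsto (fun r : ℕ => Real.log r - Real.log 2) atTop atTop :=
    tendsto_atTop_add_const_right _ _ (Real.tendsto_log_atTop.comp tendsto_natCast_atTop_atTop)
  refine tendsto_atTop_mono' _ ?_ h1
  filter_upwards [eventually_ge_atTop 1] with r hr
  have hr0 : (0 : ℝ) < r := by exact_mod_cast hr
  have hr1 : (1 : ℝ) ≤ r := by exact_mod_cast hr
  have h2 := log_le_sum_inv (r ^ 2) (r ^ 3) (Nat.pow_le_pow_right hr (by norm_num))
  refine le_trans ?_ h2
  rw [← Real.log_div hr0.ne' two_ne_zero, ← Real.log_div (by positivity) (by positivity)]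
  apply Real.log_le_log (by positivity)
  rw [div_le_div_iff₀ two_pos (by positivity)]
  push_cast
  have : (r : ℝ) ≤ (r : ℝ) ^ 3 := by
    have : 1 ≤ (r : ℝ) ^ 2 := one_le_pow₀ hr1
    nlinarith
  nlinarith

lemma err_tendsto (A s : ℝ) (K : ℕ) (hs0 : 0 < s) (hs1 : s < 1) :
    Tendsto (fun r : ℕ =>
      (Real.exp ((12 + 384 * A) / r) + K * (2 * Real.exp (15 + 384 * A / r) / r) - 1) +
      2 * (K * Real.exp (-((1 - s) ^ 2 * s ^ 2 * HH (r ^ 2) (r ^ 3)) + 6 + 256 * A / r)))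
      atTop (𝓝 0) := by
  have hinv : ∀ C : ℝ, Tendsto (fun r : ℕ => C / (r : ℝ)) atTop (𝓝 0) := fun C =>
    tendsto_const_div_atTop_nhds_zero_nat C
  have h1 : Tendsto (fun r : ℕ => Real.exp ((12 + 384 * A) / r)) atTop (𝓝 1) := by
    have := (Real.continuous_exp.tendsto 0).comp (hinv (12 + 384 * A))
    rw [Real.exp_zero] at this
    exact this
  have h2 : Tendsto (fun r : ℕ => (K : ℝ) * (2 * Real.exp (15 + 384 * A / r) / r)) atTop (𝓝 0) := by
    have h3 : Tendsto (fun r : ℕ => Real.exp (15 + 384 * A / r)) atTop (𝓝 (Real.exp (15 + 0))) :=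
      (Real.continuous_exp.tendsto _).comp ((hinv (384 * A)).const_add 15)
    have h4 := ((h3.const_mul 2).mul (hinv 1)).const_mul (K : ℝ)
    simp only [mul_zero] at h4
    refine h4.congr fun r => ?_
    ring
  have h5 : Tendsto (fun r : ℕ =>
      Real.exp (-((1 - s) ^ 2 * s ^ 2 * HH (r ^ 2) (r ^ 3)) + 6 + 256 * A / r)) atTop (𝓝 0) := by
    apply Real.tendsto_exp_atBot.comp
    have hc : 0 < (1 - s) ^ 2 * s ^ 2 := by
      have : 0 < 1 - s := by linarith
      positivity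
    have h6 : Tendsto (fun r : ℕ => -((1 - s) ^ 2 * s ^ 2 * HH (r ^ 2) (r ^ 3))) atTop atBot :=
      tendsto_neg_atTop_atBot.comp (HH_tendsto.const_mul_atTop hc)
    have h7 : Tendsto (fun r : ℕ => -((1 - s) ^ 2 * s ^ 2 * HH (r ^ 2) (r ^ 3)) + 6) atTop atBot :=
      tendsto_atBot_add_const_right _ _ h6
    exact h7.atBot_add (hinv (256 * A))
  have h8 := ((h1.add h2).sub_const 1).add ((h5.const_mul (K : ℝ)).const_mul 2)
  simpa using h8

/-- With high probability some truncation event occurs. -/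
lemma lower_main {X : ℕ → Ω → ℝ} {t₀ A : ℝ} (ht₀ : 0 < t₀) (hA : 0 < A) (hX : ExpCtl P X t₀ A)
    (s : ℝ) (hs0 : 0 < s) (hs1 : s < 1) (K : ℕ) (hK : 3 ≤ K) (κ : ℝ) (hκ : 0 < κ) :
    ∀ᶠ r : ℕ in atTop, ∀ n : ℕ, r ^ K ≤ n → n < (r + 1) ^ K →
      P.real {ω | ∀ i < r ^ K, ω ∉ II X s r K n (r ^ K) i} ≤ κ := by
  have hinv : Tendsto (fun r : ℕ => (4 : ℝ) / (r : ℝ)) atTop (𝓝 0) :=
    tendsto_const_div_atTop_nhds_zero_nat 4
  filter_upwards [(err_tendsto A s K hs0 hs1).eventually_le_const hκ,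
    hinv.eventually_le_const ht₀, eventually_ge_atTop (max K 1)] with r h1 h2 h3 n hn hn'
  have hrK : K ≤ r := (le_max_left _ _).trans h3
  have hr : 1 ≤ r := (le_max_right _ _).trans h3
  have hn2 : r ^ 2 ≤ n := (Nat.pow_le_pow_right hr (by omega)).trans hn
  have hN : 0 < r ^ K := by positivity
  have hint : ∀ i < r ^ K, Integrable (ww P X s r K n (r ^ K) i) P := by
    intro i hi
    unfold ww
    refine Integrable.indicator ?_ (measurableSet_II hX.1 s r K n (r ^ K) i)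
    exact (ZZ_bounds hA hX r hr h2 n hn2 (r ^ K) i s hs0 hs1).1.div_const _
  have h := second_moment (P := P) (r ^ K) hN (fun i => ww P X s r K n (r ^ K) i) hint
    (fun i hi j hj =>
      (pair_gen hA hX r hr h2 K n hK hn (r ^ K) i j hi hj s hs0 hs1 2 le_rfl (by omega)).1)
    (K * Real.exp (-((1 - s) ^ 2 * s ^ 2 * HH (r ^ 2) (r ^ 3)) + 6 + 256 * A / r))
    (Real.exp ((12 + 384 * A) / r) + K * (2 * Real.exp (15 + 384 * A / r) / r) - 1)
    (fun i hi => first_moment hA hX r hr h2 K n hK hn (r ^ K) i hi s hs0 hs1)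
    (by
      refine (pair_sum hA hX r hr h2 K n hK hn hn' hrK s hs0 hs1).trans (le_of_eq ?_)
      ring)
  refine le_trans (measureReal_mono ?_ (measure_ne_top _ _)) (h.trans h1)
  intro ω hω i hi
  have hω' : ∀ i < r ^ K, ω ∉ II X s r K n (r ^ K) i := hω
  show ww P X s r K n (r ^ K) i ω = 0
  unfold ww
  rw [Set.indicator_of_notMem (hω' i hi)]

lemma exists_root (K n : ℕ) (hK : 1 ≤ K) : ∃ r : ℕ, r ^ K ≤ n ∧ n < (r + 1) ^ K := by
  have hex : ∃ r : ℕ, n < (r + 1) ^ K := by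
    refine ⟨n, ?_⟩
    calc n < n + 1 := Nat.lt_succ_self n
      _ = (n + 1) ^ 1 := (pow_one _).symm
      _ ≤ (n + 1) ^ K := Nat.pow_le_pow_right (Nat.succ_pos n) hK
  classical
  refine ⟨Nat.find hex, ?_, Nat.find_spec hex⟩
  rcases Nat.eq_zero_or_pos (Nat.find hex) with h | h
  · rw [h, zero_pow (by omega)]; exact Nat.zero_le _
  · have := Nat.find_min hex (m := Nat.find hex - 1) (by omega)
    rw [Nat.sub_add_cancel h] at this
    omega

/-- Lower tail. -/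
theorem lower_tail {X : ℕ → Ω → ℝ} {t₀ A : ℝ} (ht₀ : 0 < t₀) (hA : 0 < A)
    (hX : ExpCtl P X t₀ A) (ε : ℝ) (hε : 0 < ε) (hε1 : ε < 1) :
    Tendsto (fun n : ℕ => P.real {ω | ∀ z : ℂ, ‖z‖ = 1 →
      ‖∑ k ∈ range (n + 1), ((X k ω / Real.sqrt k : ℝ) : ℂ) * z ^ k‖ ≤ (1 - ε) * Real.log n})
      atTop (𝓝 0) := by
  set s : ℝ := ε / 8 with hs
  have hs0 : 0 < s := by positivity
  have hs1 : s < 1 := by rw [hs]; linarith
  obtain ⟨K, hKb⟩ := exists_nat_gt (24 / ε)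
  have hK24 : (24 : ℝ) < K := by
    have : 24 ≤ 24 / ε := by rw [le_div_iff₀ hε]; nlinarith
    linarith
  have hK : 3 ≤ K := by
    have : (3 : ℝ) ≤ K := by linarith
    exact_mod_cast this
  have hK0 : (0 : ℝ) < K := by linarith
  have h6K : 6 / (K : ℝ) ≤ ε / 4 := by
    rw [div_lt_iff₀ hε] at hKb
    rw [div_le_div_iff₀ hK0 (by norm_num)]; linarith
  rw [Metric.tendsto_atTop]
  intro κ hκ
  have hup := upper_tail ht₀ hA hX 1 one_pos
  have hsq : Tendsto (fun r : ℕ => r ^ 2) atTop atTop := tendsto_pow_atTop (by norm_num)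
  have hup2 := (hup.comp hsq).eventually_le_const (show (0 : ℝ) < κ / 4 by positivity)
  have hlow := lower_main ht₀ hA hX s hs0 hs1 K hK (κ / 4) (by positivity)
  obtain ⟨R0, hR0⟩ := (hup2.and (hlow.and (eventually_ge_atTop 2))).exists_forall_of_atTop
  have hloglarge : ∀ᶠ n : ℕ in atTop, 2 / ε < Real.log n :=
    (Real.tendsto_log_atTop.comp tendsto_natCast_atTop_atTop).eventually_gt_atTop _
  obtain ⟨n1, hn1⟩ := hloglarge.exists_forall_of_atTop
  refine ⟨max n1 (R0 ^ K), fun n hn => ?_⟩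
  have hnlog : 2 / ε < Real.log n := hn1 n ((le_max_left _ _).trans hn)
  have hnR : R0 ^ K ≤ n := (le_max_right _ _).trans hn
  obtain ⟨r, hr1, hr2⟩ := exists_root K n (by omega)
  have hrR : R0 ≤ r := by
    by_contra hcon
    rw [not_le] at hcon
    have : (r + 1) ^ K ≤ R0 ^ K := Nat.pow_le_pow_left hcon K
    omega
  obtain ⟨hu, hl, hr⟩ := hR0 r hrR
  have hl' := hl n hr1 hr2
  rw [Real.dist_eq, sub_zero, abs_of_nonneg measureReal_nonneg]
  have hr0 : (0 : ℝ) < r := by exact_mod_cast (by omega : 0 < r)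
  have hn2 : r ^ 2 ≤ n := (Nat.pow_le_pow_right (by omega) (by omega)).trans hr1
  have hn0 : (0 : ℝ) < n := by
    have : 0 < n := lt_of_lt_of_le (by positivity) hr1
    exact_mod_cast this
  set ℓ := Real.log n with hℓ
  have hℓ0 : 0 < ℓ := lt_trans (by positivity) hnlog
  have hlogr : Real.log r ≤ ℓ / K := by
    rw [le_div_iff₀ hK0, hℓ, mul_comm, ← Real.log_pow]
    apply Real.log_le_log (by positivity)
    exact_mod_cast hr1
  have hlogr0 : 0 ≤ Real.log r := Real.log_nonneg (by exact_mod_cast (by omega : 1 ≤ r))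
  -- inclusion
  have hincl : {ω | ∀ z : ℂ, ‖z‖ = 1 →
      ‖∑ k ∈ range (n + 1), ((X k ω / Real.sqrt k : ℝ) : ℂ) * z ^ k‖ ≤ (1 - ε) * ℓ} ⊆
      {ω | ∀ i < r ^ K, ω ∉ II X s r K n (r ^ K) i} ∪
      {ω | ∃ z : ℂ, ‖z‖ = 1 ∧ (1 + 1) * Real.log ((r ^ 2 : ℕ) : ℝ) ≤
        ‖∑ k ∈ range (r ^ 2 + 1), ((X k ω / Real.sqrt k : ℝ) : ℂ) * z ^ k‖} := by
    intro ω hω
    by_contra hcon
    rw [Set.mem_union, not_or] at hcon
    obtain ⟨hc1, hc2⟩ := hcon
    have hc1' : ¬ (∀ i < r ^ K, ω ∉ II X s r K n (r ^ K) i) := hc1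
    have hc2' : ¬ (∃ z : ℂ, ‖z‖ = 1 ∧ (1 + 1) * Real.log ((r ^ 2 : ℕ) : ℝ) ≤
        ‖∑ k ∈ range (r ^ 2 + 1), ((X k ω / Real.sqrt k : ℝ) : ℂ) * z ^ k‖) := hc2
    push Not at hc1' hc2'
    obtain ⟨i, hi, hII⟩ := hc1'
    have hS := hII.2
    set θ := th (r ^ K) i with hθ
    set z : ℂ := Complex.exp ((θ : ℝ) * Complex.I) with hz
    have hznorm : ‖z‖ = 1 := Complex.norm_exp_ofReal_mul_I θ
    have hω' := (show ∀ z : ℂ, ‖z‖ = 1 →
      ‖∑ k ∈ range (n + 1), ((X k ω / Real.sqrt k : ℝ) : ℂ) * z ^ k‖ ≤ (1 - ε) * ℓ from hω) z hznorm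
    have hsmall := hc2' z hznorm
    have hre : ∀ m : ℕ, (∑ k ∈ range (m + 1), ((X k ω / Real.sqrt k : ℝ) : ℂ) * z ^ k).re =
        ∑ k ∈ Ioc 0 m, Real.cos (k * θ) / Real.sqrt k * X k ω := by
      intro m
      have := re_eq m (fun k => X k ω) θ 0
      simpa using this
    have hsplit : ∑ k ∈ Ioc 0 n, Real.cos (k * θ) / Real.sqrt k * X k ω =
        ∑ k ∈ Ioc 0 (r ^ 2), Real.cos (k * θ) / Real.sqrt k * X k ω +
        SS X (r ^ K) i (r ^ 2) n ω := by
      unfold SS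
      rw [← Finset.Ioc_union_Ioc_eq_Ioc (Nat.zero_le (r ^ 2)) hn2,
        Finset.sum_union (Finset.Ioc_disjoint_Ioc_of_le le_rfl)]
    have h1 := Complex.re_le_norm (∑ k ∈ range (n + 1), ((X k ω / Real.sqrt k : ℝ) : ℂ) * z ^ k)
    have h2 := Complex.abs_re_le_norm
      (∑ k ∈ range (r ^ 2 + 1), ((X k ω / Real.sqrt k : ℝ) : ℂ) * z ^ k)
    rw [hre] at h1 h2
    have h3 := (abs_le.mp h2).1
    have hlogr2 : Real.log ((r ^ 2 : ℕ) : ℝ) = 2 * Real.log r := by
      push_cast; rw [Real.log_pow]; norm_num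
    rw [hlogr2] at hsmall
    -- lower bound of harmonic sum
    have hH : ℓ - 2 * Real.log r - 1 ≤ HH (r ^ 2) n := by
      have h4 := log_le_sum_inv (r ^ 2) n hn2
      refine le_trans ?_ h4
      have h5 : Real.log ((r ^ 2 : ℕ) + 1 : ℝ) ≤ 2 * Real.log r + 1 := by
        have h6 : ((r ^ 2 : ℕ) : ℝ) + 1 ≤ (r : ℝ) ^ 2 * 2 := by
          push_cast
          have : (1 : ℝ) ≤ (r : ℝ) ^ 2 := one_le_pow₀ (by exact_mod_cast (by omega : 1 ≤ r))
          linarith
        calc Real.log ((r ^ 2 : ℕ) + 1 : ℝ) ≤ Real.log ((r : ℝ) ^ 2 * 2) :=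
              Real.log_le_log (by positivity) h6
          _ = 2 * Real.log r + Real.log 2 := by
              rw [Real.log_mul (by positivity) two_ne_zero, Real.log_pow]; norm_num
          _ ≤ 2 * Real.log r + 1 := by
              have := Real.log_two_lt_d9
              linarith
      have h7 : ℓ ≤ Real.log ((n : ℝ) + 1) := by
        rw [hℓ]; exact Real.log_le_log hn0 (by linarith)
      linarith
    have hHn := HH_nonneg (r ^ 2) n
    have h8 : (1 - 2 * s) * HH (r ^ 2) n ≤ (1 - s) * (1 - s) * HH (r ^ 2) n := by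
      have : 1 - 2 * s ≤ (1 - s) * (1 - s) := by nlinarith
      exact mul_le_mul_of_nonneg_right this hHn
    have hHle : (1 - 2 * s) * (ℓ - 2 * Real.log r - 1) ≤ (1 - 2 * s) * HH (r ^ 2) n := by
      apply mul_le_mul_of_nonneg_left hH
      rw [hs]; linarith
    have h9 : ℓ - 2 * s * ℓ - 2 * Real.log r - 1 ≤ (1 - 2 * s) * (ℓ - 2 * Real.log r - 1) := by
      have e : (1 - 2 * s) * (ℓ - 2 * Real.log r - 1) =
        ℓ - 2 * s * ℓ - 2 * Real.log r - 1 + 2 * s * (2 * Real.log r + 1) := by ring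
      rw [e]
      have : 0 ≤ 2 * s * (2 * Real.log r + 1) := by positivity
      linarith
    have h10 : 6 * (ℓ / K) ≤ ε / 4 * ℓ := by
      have : 6 * (ℓ / K) = 6 / K * ℓ := by ring
      rw [this]
      exact mul_le_mul_of_nonneg_right h6K hℓ0.le
    have h11 : 2 * s * ℓ = ε / 4 * ℓ := by rw [hs]; ring
    have h12 : 2 < ε * ℓ := by
      rw [div_lt_iff₀ hε] at hnlog; linarith
    rw [hsplit] at h1
    nlinarith
  refine lt_of_le_of_lt ((measureReal_mono hincl (measure_ne_top _ _)).trans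
    (measureReal_union_le _ _)) ?_
  have hu' : P.real {ω | ∃ z : ℂ, ‖z‖ = 1 ∧ (1 + 1) * Real.log ((r ^ 2 : ℕ) : ℝ) ≤
        ‖∑ k ∈ range (r ^ 2 + 1), ((X k ω / Real.sqrt k : ℝ) : ℂ) * z ^ k‖} ≤ κ / 4 := hu
  linarith

end Pool.Agent.Helper722.LogPoly
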